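import Pool.Agent.P.MP_cd0533_lc.Obstruction

/-!
Two weak approximation steps (by reflection) and the final assembling lemma.
-/

set_option autoImplicit false

namespace Pool.Agent.P.MP_cd0533_lc

open Pool.Agent.Lib.Legendre

lemma not_dvd_two {q : ℕ} (hq : q.Prime) (h2 : q ≠ 2) : ¬ (q : ℤ) ∣ 2 := fun h =>
  h2 ((Nat.prime_dvd_prime_iff_eq hq Nat.prime_two).mp (by exact_mod_cast h))

lemma conic_adjust {c n : ℤ} (hn : Prime n) (S : Finset ℕ)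
    (hS : ∀ q ∈ S, q.Prime ∧ q ≠ 2 ∧ ¬ (q : ℤ) ∣ c ∧ (q : ℤ) ∣ c - n)
    (hrep : Rep n c) (hns : ∀ τ z : ℤ, c * τ ^ 2 = n * z ^ 2 → τ = 0) :
    ∃ τ w z : ℤ, c * τ ^ 2 = w ^ 2 + n * z ^ 2 ∧ w ≠ 0 ∧ IsCoprime τ w ∧
      ∀ q ∈ S, (q : ℤ) ∣ w := by
  classical
  obtain ⟨D, y, z, hD, h⟩ := hrep.exists_int
  have hg : 0 < Int.gcd D z := Int.gcd_pos_of_ne_zero_left z hD
  obtain ⟨τ0, z0, hc0, hD0, hz0⟩ := Int.exists_gcd_one hg
  set g : ℤ := (Int.gcd D z : ℤ) with hgdef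
  have hg0 : g ≠ 0 := by rw [hgdef]; exact_mod_cast hg.ne'
  have hgy : g ∣ y := by
    rw [← Int.pow_dvd_pow_iff two_ne_zero]
    exact ⟨c * τ0 ^ 2 - n * z0 ^ 2, by rw [hD0, hz0] at h; linarith⟩
  obtain ⟨w0, hw0⟩ := hgy
  have h0 : c * τ0 ^ 2 = w0 ^ 2 + n * z0 ^ 2 := by
    apply mul_left_cancel₀ (pow_ne_zero 2 hg0)
    rw [hD0, hz0, hw0] at h; linarith
  have hτ0 : τ0 ≠ 0 := by rintro rfl; simp at hD0; exact hD hD0
  have hw00 : w0 ≠ 0 := by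
    rintro rfl
    exact hτ0 (hns τ0 z0 (by linarith))
  have hcop0 : IsCoprime τ0 z0 := Int.isCoprime_iff_gcd_eq_one.mpr hc0
  obtain ⟨ε, hε⟩ := crt_primes S (fun q hq => (hS q hq).1)
    (fun q => if (q : ℤ) ∣ τ0 - z0 then -1 else 1)
  set τ1 := (c - n * ε ^ 2) * τ0 - 2 * (c * τ0 - n * ε * z0) with hτ1
  set w1 := (c - n * ε ^ 2) * w0 with hw1
  set z1 := (c - n * ε ^ 2) * z0 - 2 * ε * (c * τ0 - n * ε * z0) with hz1
  have h1 : c * τ1 ^ 2 = w1 ^ 2 + n * z1 ^ 2 := by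
    rw [hτ1, hw1, hz1]; linear_combination (c - n * ε ^ 2) ^ 2 * h0
  have hw1ne : w1 ≠ 0 := by
    apply mul_ne_zero _ hw00
    intro hh
    exact one_ne_zero (hns 1 ε (by linarith))
  have hloc : ∀ q ∈ S, (q : ℤ) ∣ w1 ∧ ¬ (q : ℤ) ∣ τ1 := by
    intro q hq
    obtain ⟨hqp, hq2, hqc, hqn⟩ := hS q hq
    have hP := intPrime hqp
    have he := hε q hq
    have hq1 : (q : ℤ) ∣ c - n * ε ^ 2 := by
      have e1 : (q : ℤ) ∣ ε ^ 2 - 1 := by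
        split_ifs at he
        · exact (show ε ^ 2 - 1 = (ε - -1) * (ε - 1) by ring) ▸ he.mul_right _
        · exact (show ε ^ 2 - 1 = (ε - 1) * (ε + 1) by ring) ▸ he.mul_right _
      have := dvd_sub hqn (e1.mul_left n)
      rwa [show c - n - n * (ε ^ 2 - 1) = c - n * ε ^ 2 by ring] at this
    refine ⟨hq1.mul_right _, fun hh => ?_⟩
    have e2 : (q : ℤ) ∣ 2 * (c * τ0 - n * ε * z0) := by
      have := dvd_sub (hq1.mul_right τ0) hh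
      rwa [hτ1, sub_sub_cancel] at this
    have e3 := (hP.dvd_or_dvd e2).resolve_left (not_dvd_two hqp hq2)
    have e4 : (q : ℤ) ∣ c * (τ0 - ε * z0) := by
      have := dvd_sub e3 (hqn.mul_right (ε * z0))
      rwa [show c * τ0 - n * ε * z0 - (c - n) * (ε * z0) = c * (τ0 - ε * z0) by ring] at this
    have e5 := (hP.dvd_or_dvd e4).resolve_left hqc
    split_ifs at he with hif
    · have e6 : (q : ℤ) ∣ τ0 + z0 := by
        have := dvd_add e5 (he.mul_right z0)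
        rwa [show τ0 - ε * z0 + (ε - -1) * z0 = τ0 + z0 by ring] at this
      have e7 : (q : ℤ) ∣ 2 * τ0 := by
        have := dvd_add e6 hif
        rwa [show τ0 + z0 + (τ0 - z0) = 2 * τ0 by ring] at this
      have e8 : (q : ℤ) ∣ 2 * z0 := by
        have := dvd_sub e6 hif
        rwa [show τ0 + z0 - (τ0 - z0) = 2 * z0 by ring] at this
      exact hP.not_isUnit (hcop0.isUnit_of_dvd'
        ((hP.dvd_or_dvd e7).resolve_left (not_dvd_two hqp hq2))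
        ((hP.dvd_or_dvd e8).resolve_left (not_dvd_two hqp hq2)))
    · apply hif
      have := dvd_add e5 (he.mul_right z0)
      rwa [show τ0 - ε * z0 + (ε - 1) * z0 = τ0 - z0 by ring] at this
  have hg1 : 0 < Int.gcd τ1 w1 := Int.gcd_pos_of_ne_zero_right τ1 hw1ne
  obtain ⟨τ, w, hc2, hτ, hw⟩ := Int.exists_gcd_one hg1
  set g1 : ℤ := (Int.gcd τ1 w1 : ℤ) with hg1def
  have hg10 : g1 ≠ 0 := by rw [hg1def]; exact_mod_cast hg1.ne'
  have hgz : g1 ∣ z1 := by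
    have e1 : g1 * g1 ∣ n * z1 ^ 2 :=
      ⟨c * τ ^ 2 - w ^ 2, by rw [hτ, hw] at h1; linarith⟩
    have hg2 : 0 < Int.gcd g1 z1 := Int.gcd_pos_of_ne_zero_left z1 hg10
    obtain ⟨a, b, hab, ha, hb⟩ := Int.exists_gcd_one hg2
    set g2 : ℤ := (Int.gcd g1 z1 : ℤ) with hg2def
    have hg20 : g2 ≠ 0 := by rw [hg2def]; exact_mod_cast hg2.ne'
    have e2 : a ^ 2 ∣ n * b ^ 2 := by
      obtain ⟨k, hk⟩ := e1
      refine ⟨k, ?_⟩
      apply mul_left_cancel₀ (pow_ne_zero 2 hg20)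
      rw [ha, hb] at hk; linarith
    have e3 : a ^ 2 ∣ n :=
      (Int.isCoprime_iff_gcd_eq_one.mpr hab).pow.dvd_of_dvd_mul_right e2
    have e4 : IsUnit a := hn.squarefree a (by rwa [← sq])
    rw [ha, hb]
    exact mul_dvd_mul_right (e4.dvd) _
  obtain ⟨z2, hz2⟩ := hgz
  refine ⟨τ, w, z2, ?_, ?_, Int.isCoprime_iff_gcd_eq_one.mpr hc2, ?_⟩
  · apply mul_left_cancel₀ (pow_ne_zero 2 hg10)
    rw [hτ, hw, hz2] at h1; linarith
  · rintro rfl; simp at hw; exact hw1ne hw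
  · intro q hq
    obtain ⟨e1, e2⟩ := hloc q hq
    rw [hw] at e1
    refine ((intPrime (hS q hq).1).dvd_or_dvd e1).resolve_right (fun hh => e2 ?_)
    rw [hτ]; exact hh.mul_left _

lemma quadric_adjust {a1 a2 a3 a4 : ℤ} (h1 : 0 < a1) (h2 : 0 < a2) (h3 : 0 < a3) (S : Finset ℕ)
    (hS : ∀ q ∈ S, q.Prime ∧ q ≠ 2 ∧ ¬ (q : ℤ) ∣ a1 ∧ ¬ (q : ℤ) ∣ a2 ∧ ¬ (q : ℤ) ∣ a4)
    (hrep : ∃ B B' A : ℚ, (a4 : ℚ) = a1 * B ^ 2 + a2 * B' ^ 2 + a3 * A ^ 2) :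
    ∃ B B' A N : ℤ, a1 * B ^ 2 + a2 * B' ^ 2 + a3 * A ^ 2 = a4 * N ^ 2 ∧ N ≠ 0 ∧
      ∀ q ∈ S, ¬ (q : ℤ) ∣ A := by
  classical
  have hex : ∃ k : ℕ, ∃ B B' A N : ℤ, a1 * B ^ 2 + a2 * B' ^ 2 + a3 * A ^ 2 = a4 * N ^ 2 ∧ N ≠ 0 ∧
      N.natAbs = k := by
    obtain ⟨a, b, c, h⟩ := hrep
    have ha : (a.num : ℚ) = a * a.den := (Rat.mul_den_eq_num a).symm
    have hb : (b.num : ℚ) = b * b.den := (Rat.mul_den_eq_num b).symm
    have hc : (c.num : ℚ) = c * c.den := (Rat.mul_den_eq_num c).symm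
    have e1 : (a1 : ℚ) * (a.num * b.den * c.den) ^ 2 + a2 * (b.num * a.den * c.den) ^ 2 +
        a3 * (c.num * a.den * b.den) ^ 2 = a4 * (a.den * b.den * c.den) ^ 2 := by
      rw [ha, hb, hc, h]; ring
    refine ⟨_, a.num * b.den * c.den, b.num * a.den * c.den, c.num * a.den * b.den,
      a.den * b.den * c.den, by exact_mod_cast e1, ?_, rfl⟩
    have := a.den_pos; have := b.den_pos; have := c.den_pos
    positivity
  obtain ⟨B0, B0', A0, N0, h0, hN0, hk⟩ := Nat.find_spec hex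
  have hprim : ∀ q ∈ S, (q : ℤ) ∣ A0 → (q : ℤ) ∣ B0 → (q : ℤ) ∣ B0' → False := by
    intro q hq ⟨A, hA⟩ ⟨B, hB⟩ ⟨B', hB'⟩
    obtain ⟨hqp, -, -, -, hq4⟩ := hS q hq
    have hP := intPrime hqp
    have e1 : (q : ℤ) ∣ a4 * N0 ^ 2 :=
      ⟨q * (a1 * B ^ 2 + a2 * B' ^ 2 + a3 * A ^ 2), by rw [← h0, hA, hB, hB']; ring⟩
    obtain ⟨N, hN⟩ := hP.dvd_of_dvd_pow ((hP.dvd_or_dvd e1).resolve_left hq4)
    have hN' : N ≠ 0 := by rintro rfl; simp at hN; exact hN0 hN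
    have hlt : N.natAbs < Nat.find hex := by
      rw [← hk, hN, Int.natAbs_mul, Int.natAbs_natCast]
      have e2 : 0 < N.natAbs := Int.natAbs_pos.mpr hN'
      have e3 := hqp.two_le
      nlinarith
    apply Nat.find_min hex hlt
    refine ⟨B, B', A, N, ?_, hN', rfl⟩
    apply mul_left_cancel₀ (pow_ne_zero 2 hP.ne_zero)
    rw [hA, hB, hB', hN] at h0; linarith
  rcases S.eq_empty_or_nonempty with rfl | ⟨q0, hq0⟩
  · exact ⟨B0, B0', A0, N0, h0, hN0, by simp⟩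
  have hSp : ∀ q ∈ S, q.Prime := fun q hq => (hS q hq).1
  obtain ⟨x1, hx1⟩ := crt_primes S hSp
    (fun q => if (q : ℤ) ∣ A0 then (if (q : ℤ) ∣ B0 then 0 else 1) else 0)
  obtain ⟨x2, hx2⟩ := crt_primes S hSp
    (fun q => if (q : ℤ) ∣ A0 then (if (q : ℤ) ∣ B0 then 1 else 0) else 0)
  obtain ⟨x3, hx3⟩ := crt_primes S hSp (fun q => if (q : ℤ) ∣ A0 then 1 else 0)
  set QX := a1 * x1 ^ 2 + a2 * x2 ^ 2 + a3 * x3 ^ 2 - a4 * (1 - x3) ^ 2 with hQX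
  set BX := a1 * x1 * B0 + a2 * x2 * B0' + a3 * x3 * A0 - a4 * (1 - x3) * N0 with hBX
  have hA : ∀ q ∈ S, ¬ (q : ℤ) ∣ QX * A0 - 2 * BX * x3 := by
    intro q hq hd
    obtain ⟨hqp, hq2, hq1', hq2', hq4⟩ := hS q hq
    have hP := intPrime hqp
    have e1 := hx1 q hq
    have e2 := hx2 q hq
    have e3 := hx3 q hq
    by_cases hA0 : (q : ℤ) ∣ A0
    · simp only [hA0, if_true] at e1 e2 e3
      obtain ⟨k3, hk3⟩ := e3
      obtain ⟨k0, hk0⟩ := hA0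
      have e4 : (q : ℤ) ∣ 2 * BX := by
        have := dvd_sub (dvd_sub (show (q : ℤ) ∣ QX * A0 from ⟨QX * k0, by rw [hk0]; ring⟩) hd)
          (show (q : ℤ) ∣ 2 * BX * (x3 - 1) from ⟨2 * BX * k3, by rw [hk3]; ring⟩)
        rwa [show QX * A0 - (QX * A0 - 2 * BX * x3) - 2 * BX * (x3 - 1) = 2 * BX by ring] at this
      obtain ⟨k4, hk4⟩ := (hP.dvd_or_dvd e4).resolve_left (not_dvd_two hqp hq2)
      by_cases hB0 : (q : ℤ) ∣ B0
      · simp only [hB0, if_true] at e1 e2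
        obtain ⟨k1, hk1⟩ := e1
        obtain ⟨k2, hk2⟩ := e2
        have e5 : (q : ℤ) ∣ a2 * B0' := by
          refine ⟨k4 - a1 * k1 * B0 - a2 * k2 * B0' - a3 * x3 * k0 - a4 * k3 * N0, ?_⟩
          rw [hBX] at hk4
          linear_combination hk4 - a1 * B0 * hk1 - a2 * B0' * hk2 - a3 * x3 * hk0 - a4 * N0 * hk3
        exact hprim q hq ⟨k0, hk0⟩ hB0 ((hP.dvd_or_dvd e5).resolve_left hq2')
      · simp only [hB0, if_false] at e1 e2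
        obtain ⟨k1, hk1⟩ := e1
        obtain ⟨k2, hk2⟩ := e2
        have e5 : (q : ℤ) ∣ a1 * B0 := by
          refine ⟨k4 - a1 * k1 * B0 - a2 * k2 * B0' - a3 * x3 * k0 - a4 * k3 * N0, ?_⟩
          rw [hBX] at hk4
          linear_combination hk4 - a1 * B0 * hk1 - a2 * B0' * hk2 - a3 * x3 * hk0 - a4 * N0 * hk3
        exact hB0 ((hP.dvd_or_dvd e5).resolve_left hq1')
    · simp only [hA0, if_false] at e1 e2 e3
      obtain ⟨k1, hk1⟩ := e1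
      obtain ⟨k2, hk2⟩ := e2
      obtain ⟨k3, hk3⟩ := e3
      obtain ⟨k4, hk4⟩ := hd
      have e5 : (q : ℤ) ∣ a4 * A0 := by
        refine ⟨-k4 + (a1 * x1 * k1 + a2 * x2 * k2 + a3 * x3 * k3 - a4 * (x3 - 2) * k3) * A0
          - 2 * BX * k3, ?_⟩
        rw [hQX] at hk4
        linear_combination (-1) * hk4 + a1 * x1 * A0 * hk1 + a2 * x2 * A0 * hk2
          + (a3 * x3 * A0 - a4 * (x3 - 2) * A0 - 2 * BX) * hk3
      exact hA0 ((hP.dvd_or_dvd e5).resolve_left hq4)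
  have heq : a1 * (QX * B0 - 2 * BX * x1) ^ 2 + a2 * (QX * B0' - 2 * BX * x2) ^ 2 +
      a3 * (QX * A0 - 2 * BX * x3) ^ 2 = a4 * (QX * N0 - 2 * BX * (1 - x3)) ^ 2 := by
    linear_combination QX ^ 2 * h0 + 4 * QX * BX * hBX - 4 * BX ^ 2 * hQX
  refine ⟨_, _, _, _, heq, ?_, hA⟩
  intro hN
  rw [hN] at heq
  have hA0 : QX * A0 - 2 * BX * x3 ≠ 0 := fun h => hA q0 hq0 (h ▸ dvd_zero _)
  have e1 : 0 < a3 * (QX * A0 - 2 * BX * x3) ^ 2 := by positivity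
  have e2 : 0 ≤ a1 * (QX * B0 - 2 * BX * x1) ^ 2 := by positivity
  have e3 : 0 ≤ a2 * (QX * B0' - 2 * BX * x2) ^ 2 := by positivity
  linarith

lemma three_inert {A y z : ℤ} (hA : (3 : ℤ) ∣ A - 1) (h : (3 : ℤ) ∣ y ^ 2 + A * z ^ 2) :
    (3 : ℤ) ∣ y ∧ (3 : ℤ) ∣ z := by
  refine inert_of_jac (q := 3) Nat.prime_three (A := A) ?_ h
  have : jacobiSym (-A) 3 = jacobiSym 2 3 := by
    apply jac_left_congr (n := 3)
    obtain ⟨k, hk⟩ := hA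
    exact ⟨-k - 1, by push_cast; linarith⟩
  rw [this]; norm_num

lemma assemble {x n l : ℤ} (hx : 0 < x) (hx3 : (3 : ℤ) ∣ x - 1) (hn3 : ¬ (3 : ℤ) ∣ n)
    (hl3 : ¬ (3 : ℤ) ∣ l) (hn : Rep (7 : ℤ) n) :
    ∀ (k : ℕ) (y1 z1 y2 z2 F H L3 L4 : ℤ), L3 = n * (y1 ^ 2 + 7 * z1 ^ 2) →
      L4 = y2 ^ 2 + 7 * z2 ^ 2 → 3 * l * (L3 + L4) = F ^ 2 + 7 * x * H ^ 2 →
      (L3 + L4).natAbs = k → (L3 + 49 * L4) * (L3 + L4) ≠ 0 →
      Rep ((7 * x : ℤ) : ℚ) (((L3 + 49 * L4) * (L3 + L4) : ℤ) : ℚ) → SysM x := by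
  intro k
  induction k using Nat.strong_induction_on with
  | _ k ih =>
  intro y1 z1 y2 z2 F H L3 L4 h3 h4 h2 hk hne hrep
  have hP : Prime (3 : ℤ) := Int.prime_three
  have h7x : (3 : ℤ) ∣ 7 * x - 1 := by omega
  obtain ⟨⟨F', rfl⟩, ⟨H', rfl⟩⟩ := three_inert (y := F) (z := H) h7x ⟨l * (L3 + L4), by linarith⟩
  have hL2 : (3 : ℤ) ∣ L3 + L4 := by
    have : (3 : ℤ) ∣ l * (L3 + L4) := ⟨F' ^ 2 + 7 * x * H' ^ 2, by linarith⟩
    exact (hP.dvd_or_dvd this).resolve_left hl3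
  by_cases hL4 : (3 : ℤ) ∣ L4
  · obtain ⟨⟨y2', rfl⟩, ⟨z2', rfl⟩⟩ := three_inert (A := 7) (y := y2) (z := z2) (by norm_num)
      (h4 ▸ hL4)
    have hL3 : (3 : ℤ) ∣ L3 := by omega
    obtain ⟨⟨y1', rfl⟩, ⟨z1', rfl⟩⟩ := three_inert (A := 7) (y := y1) (z := z1) (by norm_num)
      ((hP.dvd_or_dvd (h3 ▸ hL3)).resolve_left hn3)
    set L3' := n * (y1' ^ 2 + 7 * z1' ^ 2) with hL3'
    set L4' := y2' ^ 2 + 7 * z2' ^ 2 with hL4'
    have e3 : L3 = 9 * L3' := by rw [h3, hL3']; ring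
    have e4 : L4 = 9 * L4' := by rw [h4, hL4']; ring
    have hne' : (L3' + 49 * L4') * (L3' + L4') ≠ 0 := by
      intro h; apply hne; rw [e3, e4]; linear_combination 81 * h
    refine ih (L3' + L4').natAbs ?_ y1' z1' y2' z2' F' H' L3' L4' rfl rfl ?_ rfl hne' ?_
    · have : L3' + L4' ≠ 0 := right_ne_zero_of_mul hne'
      rw [← hk, e3, e4]; omega
    · rw [e3, e4] at h2; linarith
    · apply Rep.of_mul_sq (f := 9) (by norm_num)
      convert hrep using 1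
      rw [e3, e4]; push_cast; ring
  · obtain ⟨v, hv⟩ : (3 : ℤ) ∣ L3 + 7 * L4 := by omega
    set U := L3 - 7 * L4 with hU
    have hU3 : ¬ (3 : ℤ) ∣ U := by omega
    have hUv : ¬ (3 : ℤ) ∣ U ^ 2 + 6 * v ^ 2 := by
      intro h
      apply hU3
      apply hP.dvd_of_dvd_pow (n := 2)
      have := dvd_sub h (show (3 : ℤ) ∣ 6 * v ^ 2 from ⟨2 * v ^ 2, by ring⟩)
      rwa [add_sub_cancel_right] at this
    have hU0 : U ≠ 0 := fun h => hU3 (h ▸ dvd_zero _)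
    obtain ⟨g1, g2, g3, hg⟩ := tern_of_not_dvd Nat.prime_three (by norm_num)
      (y := U ^ 2 + 6 * v ^ 2) (by positivity) hUv
    obtain ⟨Y, Z, hZ, hYZ⟩ := hrep.exists_ne (by positivity) (by exact_mod_cast hne)
    have hr34 : Rep (7 : ℤ) ((28 * (L3 * L4) : ℤ) : ℚ) := by
      have r1 : Rep (7 : ℤ) ((y1 ^ 2 + 7 * z1 ^ 2 : ℤ) : ℚ) := ⟨y1, z1, by push_cast; ring⟩
      have r2 : Rep (7 : ℤ) ((y2 ^ 2 + 7 * z2 ^ 2 : ℤ) : ℚ) := ⟨y2, z2, by push_cast; ring⟩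
      have r3 : Rep (7 : ℤ) 28 := ⟨0, 2, by push_cast; ring⟩
      convert r3.mul ((hn.mul r1).mul r2) using 1
      rw [h3, h4]; push_cast; ring
    obtain ⟨y', z', hyz⟩ := hr34
    have hv' : (L3 : ℚ) + 7 * L4 = 3 * v := by exact_mod_cast hv
    have hU' : (U : ℚ) = L3 - 7 * L4 := by exact_mod_cast hU
    have hsys : SysM (x * (7 * Z / 3) ^ 2) := by
      refine ⟨U, v, Y / 3, y', z', g1, g2, g3, ?_, ?_, ?_⟩
      · push_cast at hYZ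
        rw [hU']
        linear_combination (-7 / 9) * hYZ + (16 / 9 * (3 * v + L3 + 7 * L4)) * hv'
      · push_cast at hyz
        rw [hU']
        linear_combination hyz - (3 * v + L3 + 7 * L4) * hv'
      · push_cast at hg
        exact hg
    have := hsys.mul_sq (3 / (7 * Z))
    convert this using 1
    field_simp

end Pool.Agent.P.MP_cd0533_lc
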