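import Pool.Agent.P.MP_cd0533_lc.Main

/-!
Positivity as a diagonal system, and the explicit matrices.
-/

set_option autoImplicit false

namespace Pool.Agent.P.MP_cd0533_lc

open Pool.Agent.Lib.Legendre

lemma rat_four_squares {r : ℚ} (hr : 0 ≤ r) :
    ∃ a b c d : ℚ, r = a ^ 2 + b ^ 2 + c ^ 2 + d ^ 2 := by
  obtain ⟨a, b, c, d, h⟩ := Nat.sum_four_squares (r.num.natAbs * r.den)
  have hd : (r.den : ℚ) ≠ 0 := by exact_mod_cast r.den_nz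
  have e1 : ((a : ℤ) ^ 2 + b ^ 2 + c ^ 2 + d ^ 2 : ℤ) = r.num * r.den := by
    have : ((a ^ 2 + b ^ 2 + c ^ 2 + d ^ 2 : ℕ) : ℤ) = ((r.num.natAbs * r.den : ℕ) : ℤ) := by rw [h]
    push_cast at this
    rwa [abs_of_nonneg (Rat.num_nonneg.mpr hr)] at this
  have e2 : ((a : ℚ) ^ 2 + b ^ 2 + c ^ 2 + d ^ 2 : ℚ) = r.num * r.den := by exact_mod_cast e1
  rw [← Rat.mul_den_eq_num r] at e2
  refine ⟨a / r.den, b / r.den, c / r.den, d / r.den, ?_⟩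
  field_simp
  linarith

lemma pos_iff (t : ℚ) : 0 < t ↔ ∃ w a1 a2 a3 a4 b1 b2 b3 b4 : ℚ,
    2 * w ^ 2 - 1 = a1 ^ 2 + a2 ^ 2 + a3 ^ 2 + a4 ^ 2 ∧
    t + 1 - 2 * w ^ 2 = b1 ^ 2 + b2 ^ 2 + b3 ^ 2 + b4 ^ 2 := by
  constructor
  · intro ht
    obtain ⟨w, -, h1, h2⟩ := exists_rat_pow_btwn (K := ℚ) two_ne_zero
      (x := 1 / 2) (y := (t + 1) / 2) (by linarith) (by linarith)
    simp only [Rat.cast_id] at h1 h2
    obtain ⟨a1, a2, a3, a4, ha⟩ := rat_four_squares (r := 2 * w ^ 2 - 1) (by linarith)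
    obtain ⟨b1, b2, b3, b4, hb⟩ := rat_four_squares (r := t + 1 - 2 * w ^ 2) (by linarith)
    exact ⟨w, a1, a2, a3, a4, b1, b2, b3, b4, ha, hb⟩
  · rintro ⟨w, a1, a2, a3, a4, b1, b2, b3, b4, ha, hb⟩
    have h1 : 0 ≤ 2 * w ^ 2 - 1 := by rw [ha]; positivity
    have h2 : 0 ≤ t + 1 - 2 * w ^ 2 := by rw [hb]; positivity
    have h3 : 2 * w ^ 2 - 1 ≠ 0 := by
      intro h
      have h4 : IsSquare ((2 : ℕ) : ℚ) := ⟨2 * w, by push_cast; linarith⟩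
      rw [Rat.isSquare_natCast_iff] at h4
      exact Nat.prime_two.not_isSquare h4
    have : 0 < 2 * w ^ 2 - 1 := lt_of_le_of_ne h1 h3.symm
    linarith

/-- passing from systems in squares of variables to the format of the frozen statement -/
lemma format_of_diag (A : Set ℚ) (k m e : ℕ) (α : Fin k → Fin e → ℤ)
    (β : Fin k → Fin e → Fin m → ℤ) (γ : Fin k → Fin e → ℤ)
    (h : ∀ x : ℚ, x ∈ A ↔ ∃ i : Fin k, ∃ z : Fin m → ℚ, ∀ j : Fin e,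
      (α i j : ℚ) * x + (∑ l : Fin m, (β i j l : ℚ) * z l ^ 2) + (γ i j : ℚ) = 0) :
    ∃ (k m e s : ℕ) (α : Fin k → Fin e → ℤ) (β : Fin k → Fin e → Fin m → ℤ)
        (γ : Fin k → Fin e → ℤ) (p : Fin k → Fin s → ℕ) (q : Fin k → Fin s → Fin m → ℕ)
        (r : Fin k → Fin s → ℕ),
        ∀ x : ℚ, x ∈ A ↔ ∃ i : Fin k, ∃ y : Fin m → ℚ,
          (∀ j : Fin e, (α i j : ℚ) * x + (∑ l : Fin m, (β i j l : ℚ) * y l) + (γ i j : ℚ) = 0) ∧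
          (∀ j : Fin s, IsSquare ((p i j : ℚ) * x + (∑ l : Fin m, (q i j l : ℚ) * y l) +
            (r i j : ℚ))) := by
  refine ⟨k, m, e, m, α, β, γ, fun _ _ => 0, fun _ j l => if j = l then 1 else 0, fun _ _ => 0, ?_⟩
  intro x
  rw [h]
  refine exists_congr fun i => ⟨?_, ?_⟩
  · rintro ⟨z, hz⟩
    refine ⟨fun l => z l ^ 2, hz, fun j => ⟨z j, ?_⟩⟩
    simp [sq]
  · rintro ⟨y, hy, hs⟩
    have hs' : ∀ j, ∃ r : ℚ, y j = r ^ 2 := by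
      intro j
      have := hs j
      simp only [Nat.cast_zero, zero_mul, Nat.cast_ite, Nat.cast_one, ite_mul, one_mul,
        Finset.sum_ite_eq, Finset.mem_univ, if_true, zero_add, add_zero] at this
      obtain ⟨r, hr⟩ := this
      exact ⟨r, by rw [hr, sq]⟩
    choose z hz using hs'
    refine ⟨z, fun j => ?_⟩
    simpa [← hz] using hy j

theorem diag_ne_zero (x : ℚ) : x ∈ {x : ℚ | x ≠ 0} ↔ ∃ i : Fin 2, ∃ z : Fin 9 → ℚ, ∀ j : Fin 2,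
    (((![![0, 1], ![0, -1]] : Fin 2 → Fin 2 → ℤ) i j : ℤ) : ℚ) * x +
      (∑ l : Fin 9, (((![![2, -1, -1, -1, -1, 0, 0, 0, 0], ![-2, 0, 0, 0, 0, -1, -1, -1, -1]] :
        Fin 2 → Fin 9 → ℤ) j l : ℤ) : ℚ) * z l ^ 2) + (((![-1, 1] : Fin 2 → ℤ) j : ℤ) : ℚ) = 0 := by
  rw [Set.mem_ofPred_eq, ne_iff_lt_or_gt, or_comm, ← neg_pos (a := x), pos_iff x, pos_iff (-x),
    Fin.exists_fin_two]
  refine or_congr ⟨?_, ?_⟩ ⟨?_, ?_⟩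
  · rintro ⟨w, a1, a2, a3, a4, b1, b2, b3, b4, ha, hb⟩
    refine ⟨![w, a1, a2, a3, a4, b1, b2, b3, b4], ?_⟩
    simp [Fin.forall_fin_succ, Fin.sum_univ_succ]
    constructor <;> linarith
  · rintro ⟨z, hz⟩
    simp [Fin.forall_fin_succ, Fin.sum_univ_succ] at hz
    exact ⟨z 0, z 1, z 2, z 3, z 4, z 5, z 6, z 7, z 8, by linarith [hz.1], by linarith [hz.2]⟩
  · rintro ⟨w, a1, a2, a3, a4, b1, b2, b3, b4, ha, hb⟩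
    refine ⟨![w, a1, a2, a3, a4, b1, b2, b3, b4], ?_⟩
    simp [Fin.forall_fin_succ, Fin.sum_univ_succ]
    constructor <;> linarith
  · rintro ⟨z, hz⟩
    simp [Fin.forall_fin_succ, Fin.sum_univ_succ] at hz
    exact ⟨z 0, z 1, z 2, z 3, z 4, z 5, z 6, z 7, z 8, by linarith [hz.1], by linarith [hz.2]⟩

/-- coefficients of `x` -/
def al : Fin 4 → Fin 5 → ℤ :=
  ![![0, -1, 0, 0, 0], ![0, 1, 6, 0, 0], ![0, 1, 21, 0, 0], ![0, 1, 1, 0, 0]]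

/-- coefficients of the squares -/
def be : Fin 4 → Fin 5 → Fin 17 → ℤ :=
  ![![![2, -1, -1, -1, -1, 0, 0, 0, 0, 0, 0, 0, 0, 0, 0, 0, 0],
      ![-2, 0, 0, 0, 0, -1, -1, -1, -1, 0, 0, 0, 0, 0, 0, 0, 0],
      ![0, 0, 0, 0, 0, 0, 0, 0, 0, 0, 0, 0, 0, 0, 0, 0, 0],
      ![0, 0, 0, 0, 0, 0, 0, 0, 0, 0, 0, 0, 0, 0, 0, 0, 0],
      ![0, 0, 0, 0, 0, 0, 0, 0, 0, 0, 0, 0, 0, 0, 0, 0, 0]],
    ![![2, -1, -1, -1, -1, 0, 0, 0, 0, 0, 0, 0, 0, 0, 0, 0, 0],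
      ![-2, 0, 0, 0, 0, -1, -1, -1, -1, 0, 0, 0, 0, 0, 0, 0, 0],
      ![0, 0, 0, 0, 0, 0, 0, 0, 0, -1, -1, -3, 0, 0, 0, 0, 0],
      ![0, 0, 0, 0, 0, 0, 0, 0, 0, 0, 0, 0, 0, 0, 0, 0, 0],
      ![0, 0, 0, 0, 0, 0, 0, 0, 0, 0, 0, 0, 0, 0, 0, 0, 0]],
    ![![2, -1, -1, -1, -1, 0, 0, 0, 0, 0, 0, 0, 0, 0, 0, 0, 0],
      ![-2, 0, 0, 0, 0, -1, -1, -1, -1, 0, 0, 0, 0, 0, 0, 0, 0],
      ![0, 0, 0, 0, 0, 0, 0, 0, 0, -1, -1, -7, 0, 0, 0, 0, 0],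
      ![0, 0, 0, 0, 0, 0, 0, 0, 0, 0, 0, 0, 0, 0, 0, 0, 0],
      ![0, 0, 0, 0, 0, 0, 0, 0, 0, 0, 0, 0, 0, 0, 0, 0, 0]],
    ![![2, -1, -1, -1, -1, 0, 0, 0, 0, 0, 0, 0, 0, 0, 0, 0, 0],
      ![-2, 0, 0, 0, 0, -1, -1, -1, -1, 0, 0, 0, 0, 0, 0, 0, 0],
      ![0, 0, 0, 0, 0, 0, 0, 0, 0, 1, -16, 7, 0, 0, 0, 0, 0],
      ![0, 0, 0, 0, 0, 0, 0, 0, 0, -1, 9, 0, -1, -7, 0, 0, 0],
      ![0, 0, 0, 0, 0, 0, 0, 0, 0, 1, 6, 0, 0, 0, -1, -1, -3]]]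

/-- constant terms -/
def ga : Fin 4 → Fin 5 → ℤ := fun _ => ![-1, 1, 0, 0, 0]

theorem diag_not_isSquare (x : ℚ) : x ∈ {x : ℚ | ¬ IsSquare x} ↔
    ∃ i : Fin 4, ∃ z : Fin 17 → ℚ, ∀ j : Fin 5,
      (al i j : ℚ) * x + (∑ l : Fin 17, (be i j l : ℚ) * z l ^ 2) + (ga i j : ℚ) = 0 := by
  rw [Set.mem_ofPred_eq, not_isSquare_iff, ← neg_pos (a := x), pos_iff, pos_iff]
  constructor
  · rintro (⟨w, a1, a2, a3, a4, b1, b2, b3, b4, ha, hb⟩ |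
      ⟨⟨w, a1, a2, a3, a4, b1, b2, b3, b4, ha, hb⟩, ⟨g1, g2, g3, hg⟩ | ⟨g1, g2, g3, hg⟩ |
        ⟨U, v, y, y', z', g1, g2, g3, h1, h2, h3⟩⟩)
    · refine ⟨0, ![w, a1, a2, a3, a4, b1, b2, b3, b4, 0, 0, 0, 0, 0, 0, 0, 0], ?_⟩
      simp [al, be, ga, Fin.forall_fin_succ, Fin.sum_univ_succ]
      constructor <;> linarith
    · refine ⟨1, ![w, a1, a2, a3, a4, b1, b2, b3, b4, g1, g2, g3, 0, 0, 0, 0, 0], ?_⟩
      simp [al, be, ga, Fin.forall_fin_succ, Fin.sum_univ_succ]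
      refine ⟨?_, ?_, ?_⟩ <;> linarith
    · refine ⟨2, ![w, a1, a2, a3, a4, b1, b2, b3, b4, g1, g2, g3, 0, 0, 0, 0, 0], ?_⟩
      simp [al, be, ga, Fin.forall_fin_succ, Fin.sum_univ_succ]
      refine ⟨?_, ?_, ?_⟩ <;> linarith
    · refine ⟨3, ![w, a1, a2, a3, a4, b1, b2, b3, b4, U, v, y, y', z', g1, g2, g3], ?_⟩
      simp [al, be, ga, Fin.forall_fin_succ, Fin.sum_univ_succ]
      refine ⟨?_, ?_, ?_, ?_, ?_⟩ <;> linarith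
  · rintro ⟨i, z, hz⟩
    fin_cases i
    · simp [al, be, ga, Fin.forall_fin_succ, Fin.sum_univ_succ] at hz
      exact Or.inl ⟨z 0, z 1, z 2, z 3, z 4, z 5, z 6, z 7, z 8, by linarith [hz.1],
        by linarith [hz.2]⟩
    · simp [al, be, ga, Fin.forall_fin_succ, Fin.sum_univ_succ] at hz
      exact Or.inr ⟨⟨z 0, z 1, z 2, z 3, z 4, z 5, z 6, z 7, z 8, by linarith [hz.1],
        by linarith [hz.2.1]⟩, Or.inl ⟨z 9, z 10, z 11, by linarith [hz.2.2]⟩⟩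
    · simp [al, be, ga, Fin.forall_fin_succ, Fin.sum_univ_succ] at hz
      exact Or.inr ⟨⟨z 0, z 1, z 2, z 3, z 4, z 5, z 6, z 7, z 8, by linarith [hz.1],
        by linarith [hz.2.1]⟩, Or.inr (Or.inl ⟨z 9, z 10, z 11, by linarith [hz.2.2]⟩)⟩
    · simp [al, be, ga, Fin.forall_fin_succ, Fin.sum_univ_succ] at hz
      exact Or.inr ⟨⟨z 0, z 1, z 2, z 3, z 4, z 5, z 6, z 7, z 8, by linarith [hz.1],
        by linarith [hz.2.1]⟩, Or.inr (Or.inr ⟨z 9, z 10, z 11, z 12, z 13, z 14, z 15, z 16,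
          by linarith [hz.2.2.1], by linarith [hz.2.2.2.1], by linarith [hz.2.2.2.2]⟩)⟩

end Pool.Agent.P.MP_cd0533_lc
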