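import Pool.Agent.P.MP_cd0533_lc.Adjust

/-!
The system `SysM` is solvable at every squarefree `x > 1` that is a square modulo 3 and modulo 7.
-/

set_option autoImplicit false

namespace Pool.Agent.P.MP_cd0533_lc

open Pool.Agent.Lib.Legendre

lemma exists_nat_mod {M : ℤ} (hM : 0 < M) (t : ℤ) : ∃ c : ℕ, M ∣ (c : ℤ) - t := by
  refine ⟨(t % M).toNat, -(t / M), ?_⟩
  rw [Int.toNat_of_nonneg (Int.emod_nonneg t hM.ne')]
  have := Int.emod_add_mul_ediv t M
  linarith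

lemma exists_c0 {x : ℕ} (hx : Squarefree x) (h1 : x ≠ 1) :
    ∃ c0 : ℕ, c0 % 4 = 1 ∧ jacobiSym x c0 = -1 := by
  have hx0 : x ≠ 0 := hx.ne_zero
  by_cases he : 2 ∣ x
  · obtain ⟨x', rfl⟩ := he
    have hx' : x' % 2 = 1 := by
      by_contra h
      have : 2 ∣ x' := by omega
      obtain ⟨k, rfl⟩ := this
      have := hx 2 ⟨k, by ring⟩
      simp at this
    have hx'0 : (0 : ℤ) < x' := by
      have : 0 < x' := by omega
      exact_mod_cast this
    have hc : IsCoprime (8 : ℤ) (x' : ℤ) := by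
      have : IsCoprime ((2 : ℕ) : ℤ) (x' : ℤ) := coprime_of_prime_not_dvd Nat.prime_two (by omega)
      simpa using this.pow_left (m := 3)
    obtain ⟨t, h8, h9⟩ := crt2 hc 5 1
    obtain ⟨c, k, hk⟩ := exists_nat_mod (M := 8 * x') (by positivity) t
    obtain ⟨k1, hk1⟩ := h8
    obtain ⟨k2, hk2⟩ := h9
    have hc8 : c % 8 = 5 := by
      have : (c : ℤ) = 8 * (x' * k + k1) + 5 := by linarith
      omega
    have hco : Odd c := Nat.odd_iff.mpr (by omega)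
    refine ⟨c, by omega, ?_⟩
    push_cast
    rw [jacobiSym.mul_left, jacobiSym.at_two hco, ZMod.χ₈_nat_eq_if_mod_eight,
      jacobiSym.quadratic_reciprocity_one_mod_four' (Nat.odd_iff.mpr hx') (by omega),
      jac_left_congr (b := 1) ⟨8 * k + k2, by linarith⟩, jacobiSym.one_left]
    rw [if_neg (by omega), if_neg (by omega)]
    norm_num
  · obtain ⟨p, hp, x', rfl⟩ := Nat.exists_prime_and_dvd h1
    have hp2 : p ≠ 2 := by rintro rfl; exact he (dvd_mul_right _ _)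
    have hx'0 : x' ≠ 0 := right_ne_zero_of_mul hx0
    have hpx : ¬ p ∣ x' := by
      rintro ⟨k, rfl⟩
      exact hp.one_lt.ne' (Nat.isUnit_iff.mp (hx p ⟨k, by ring⟩))
    have : Fact p.Prime := ⟨hp⟩
    obtain ⟨r, hr⟩ := FiniteField.exists_nonsquare (F := ZMod p) (by rw [ZMod.ringChar_zmod_n]; exact hp2)
    obtain ⟨r, rfl⟩ := ZMod.intCast_surjective r
    have hj : jacobiSym r p = -1 := ZMod.nonsquare_iff_jacobiSym_eq_neg_one.mpr hr
    have hc : IsCoprime (p : ℤ) (4 * x') := by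
      apply coprime_of_prime_not_dvd hp
      intro h
      rcases (intPrime hp).dvd_or_dvd h with h | h
      · exact not_dvd_two hp hp2 ((intPrime hp).dvd_of_dvd_pow (n := 2) (by simpa using h))
      · exact hpx (by exact_mod_cast h)
    obtain ⟨t, ⟨k1, hk1⟩, ⟨k2, hk2⟩⟩ := crt2 hc r 1
    have hpos : (0 : ℤ) < p * (4 * x') := by
      have := hp.pos; have := Nat.pos_of_ne_zero hx'0
      positivity
    obtain ⟨c, k, hk⟩ := exists_nat_mod hpos t
    have hc4 : c % 4 = 1 := by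
      have : (c : ℤ) = 4 * (p * x' * k + x' * k2) + 1 := by linarith
      omega
    refine ⟨c, hc4, ?_⟩
    rw [jacobiSym.quadratic_reciprocity_one_mod_four' (Nat.odd_iff.mpr (by omega)) hc4,
      jacobiSym.mul_right' _ hp.ne_zero hx'0,
      jac_left_congr (b := r) (n := p) ⟨4 * x' * k + k1, by linarith⟩, hj,
      jac_left_congr (b := 1) (n := x') ⟨4 * p * k + 4 * k2, by linarith⟩, jacobiSym.one_left]
    norm_num

lemma exists_primes {x : ℕ} (hx : Squarefree x) (h1 : x ≠ 1) (h3 : x % 3 = 1)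
    (h7 : ¬ (7 : ℤ) ∣ x) :
    ∃ n l : ℕ, n.Prime ∧ l.Prime ∧ n % 4 = 1 ∧ n % 3 = 2 ∧ n % 7 = 1 ∧ l % 4 = 3 ∧ l % 3 = 1 ∧
      (7 * x : ℤ) ∣ 3 * l - n ∧ (n : ℤ) ∣ 3 * l - 1 ∧ IsCoprime (n : ℤ) (7 * x) ∧
      jacobiSym (-(7 * x)) l = 1 := by
  obtain ⟨c0, hc4, hj⟩ := exists_c0 hx h1
  have hx0 : (0 : ℤ) < x := by exact_mod_cast Nat.pos_of_ne_zero hx.ne_zero
  have hc0x : IsCoprime (c0 : ℤ) x := by
    have : NeZero c0 := ⟨by omega⟩
    have h : ¬ ((x : ℤ).gcd c0 ≠ 1) := by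
      rw [← jacobiSym.eq_zero_iff_not_coprime, hj]; norm_num
    exact (Int.isCoprime_iff_gcd_eq_one.mpr (not_not.mp h)).symm
  have hc04 : IsCoprime (c0 : ℤ) 4 := ⟨1, -(c0 / 4), by omega⟩
  have hx3 : IsCoprime (x : ℤ) 3 := ⟨1, -(x / 3), by omega⟩
  have hx7 : IsCoprime (x : ℤ) 7 := (coprime_of_prime_not_dvd (p := 7) (by norm_num) h7).symm
  have hc21 : IsCoprime (4 * x : ℤ) 21 := by
    apply IsCoprime.mul_left ⟨-5, 1, by norm_num⟩
    simpa using hx3.mul_right hx7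
  obtain ⟨t, ⟨k1, hk1⟩, ⟨k2, hk2⟩⟩ := crt2 hc21 c0 8
  have ht : IsCoprime t (4 * x * 21) := by
    apply IsCoprime.mul_right
    · have := (hc04.mul_right hc0x).add_mul_left_left k1
      rwa [show (c0 : ℤ) + 4 * x * k1 = t by linarith] at this
    · have : IsCoprime (8 : ℤ) 21 := ⟨8, -3, by norm_num⟩
      have := this.add_mul_left_left k2
      rwa [show (8 : ℤ) + 21 * k2 = t by linarith] at this
  obtain ⟨n, -, hn, k3, hk3⟩ := dirichlet (M := 4 * x * 21) (by positivity) ht 0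
  have hn0 : (0 : ℤ) < n := by exact_mod_cast hn.pos
  have hnc : (n : ℤ) = c0 + 4 * x * (k1 + 21 * k3) := by linarith
  have hn21 : (n : ℤ) = 8 + 21 * (k2 + 4 * x * k3) := by linarith
  have hn4x : IsCoprime (n : ℤ) (4 * x) := by
    rw [hnc]; exact (hc04.mul_right hc0x).add_mul_left_left _
  have hn4 : n % 4 = 1 := by
    have : (n : ℤ) = c0 + 4 * (x * (k1 + 21 * k3)) := by linarith
    omega
  have hn3 : n % 3 = 2 := by omega
  have hn7 : n % 7 = 1 := by omega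
  have hA : IsCoprime (4 * x : ℤ) (7 * n) :=
    IsCoprime.mul_right (IsCoprime.mul_left ⟨2, -1, by norm_num⟩ hx7) hn4x.symm
  obtain ⟨T, ⟨j1, hj1⟩, ⟨j2, hj2⟩⟩ := crt2 hA c0 1
  have hB : IsCoprime (4 * x * (7 * n) : ℤ) 9 := by
    have h3' : IsCoprime (4 * x * (7 * n) : ℤ) 3 :=
      IsCoprime.mul_left (IsCoprime.mul_left ⟨1, -1, by norm_num⟩ hx3)
        (IsCoprime.mul_left ⟨1, -2, by norm_num⟩ ⟨-1, n / 3 + 1, by omega⟩)
    simpa using h3'.pow_right (n := 2)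
  obtain ⟨T', ⟨j3, hj3⟩, ⟨j4, hj4⟩⟩ := crt2 hB T 3
  have hT : IsCoprime (1 + 3 * j4) (3 * (4 * x * (7 * n)) : ℤ) := by
    apply IsCoprime.mul_right ⟨1, -j4, by ring⟩
    apply IsCoprime.of_mul_left_right (x := 3)
    rw [show 3 * (1 + 3 * j4) = T + 4 * x * (7 * n) * j3 by linarith]
    apply IsCoprime.add_mul_left_left
    apply IsCoprime.mul_right
    · rw [show T = c0 + 4 * x * j1 by linarith]
      exact (hc04.mul_right hc0x).add_mul_left_left _
    · exact ⟨1, -j2, by linarith⟩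
  obtain ⟨l, -, hl, j5, hj5⟩ := dirichlet (M := 3 * (4 * x * (7 * n))) (by positivity) hT 0
  have hl1 : 3 * (l : ℤ) = T + 4 * x * (7 * n) * (j3 + 9 * j5) := by linarith
  have hlc : 3 * (l : ℤ) = c0 + 4 * x * (j1 + 7 * n * (j3 + 9 * j5)) := by linarith
  have hl7 : 3 * (l : ℤ) = 1 + 7 * n * (j2 + 4 * x * (j3 + 9 * j5)) := by linarith
  have hl4 : l % 4 = 3 := by
    have : 3 * (l : ℤ) = c0 + 4 * (x * (j1 + 7 * n * (j3 + 9 * j5))) := by linarith
    omega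
  have hl3 : l % 3 = 1 := by
    have : (l : ℤ) = 1 + 3 * (j4 + 4 * x * (7 * n) * j5) := by linarith
    omega
  refine ⟨n, l, hn, hl, hn4, hn3, hn7, hl4, hl3, ?_, ⟨7 * (j2 + 4 * x * (j3 + 9 * j5)), by linarith⟩,
    ?_, ?_⟩
  · apply hx7.symm.mul_dvd
    · have : 3 * (l : ℤ) = 1 + 7 * (n * (j2 + 4 * x * (j3 + 9 * j5))) := by linarith
      omega
    · exact ⟨4 * (j1 + 7 * n * (j3 + 9 * j5)) - 4 * (k1 + 21 * k3), by linarith⟩
  · exact IsCoprime.mul_right ⟨1, -(n / 7), by omega⟩ hn4x.of_mul_right_right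
  · have hco : Odd (3 * l) := Nat.odd_iff.mpr (by omega)
    have e1 : jacobiSym x (3 * l) = -1 := by
      rw [jac_right_congr x hco (Nat.odd_iff.mpr (by omega) : Odd c0)
        ⟨j1 + 7 * n * (j3 + 9 * j5), by push_cast; linarith⟩, hj]
    have e2 : jacobiSym (-7) (3 * l) = 1 := by
      have := jac_neg_three_mod_four (p := 7) (by norm_num) hco
      rw [jac_left_congr (b := 1) (n := 7) ⟨n * (j2 + 4 * x * (j3 + 9 * j5)), by
        push_cast; linarith⟩, jacobiSym.one_left] at this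
      exact_mod_cast this
    have e3 : jacobiSym (-(7 * x)) 3 = -1 := by
      rw [jac_left_congr (b := 2) (n := 3) (by omega)]; norm_num
    have e4 : jacobiSym (-(7 * x)) (3 * l) = -1 := by
      rw [show (-(7 * x) : ℤ) = -7 * x by ring, jacobiSym.mul_left, e1, e2]; norm_num
    rw [jacobiSym.mul_right' _ (by norm_num) hl.ne_zero, e3] at e4
    linarith

lemma split_primes (P : ℕ → Prop) : ∀ {s : ℕ}, s ≠ 0 → ∃ Q s1 : ℕ, s = Q * s1 ∧
    (∀ q : ℕ, q.Prime → q ∣ Q → P q) ∧ (∀ q : ℕ, q.Prime → q ∣ s1 → ¬ P q) := by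
  intro s
  induction s using induction_on_primes with
  | zero => intro h; exact absurd rfl h
  | one =>
    intro _
    exact ⟨1, 1, rfl, fun q hq h => absurd (Nat.dvd_one.mp h) hq.one_lt.ne',
      fun q hq h => absurd (Nat.dvd_one.mp h) hq.one_lt.ne'⟩
  | prime_mul p a hp ih =>
    intro h0
    obtain ⟨Q, s1, rfl, h1, h2⟩ := ih (right_ne_zero_of_mul h0)
    by_cases hP : P p
    · refine ⟨p * Q, s1, by ring, ?_, h2⟩
      intro q hq hd
      rcases (Nat.Prime.dvd_mul hq).mp hd with h | h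
      · rwa [(Nat.prime_dvd_prime_iff_eq hq hp).mp h]
      · exact h1 q hq h
    · refine ⟨Q, p * s1, by ring, h1, ?_⟩
      intro q hq hd
      rcases (Nat.Prime.dvd_mul hq).mp hd with h | h
      · rwa [(Nat.prime_dvd_prime_iff_eq hq hp).mp h]
      · exact h2 q hq h

lemma Rep.div {A s t : ℚ} (hs : Rep A s) (ht : Rep A t) (h0 : t ≠ 0) :
    ∃ y z : ℚ, s = t * (y ^ 2 + A * z ^ 2) := by
  obtain ⟨y, z, h⟩ := (hs.mul ht).mul_sq t⁻¹
  refine ⟨y, z, ?_⟩
  rw [← h]; field_simp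

/-- the choice of the common norm `n'` -/
lemma exists_common_norm {A D : ℤ} (hA : 0 < A) (hD : 0 < D) {M : ℕ} (hM0 : M ≠ 0) (hMo : Odd M)
    {t : ℤ} (hMA : IsCoprime (M : ℤ) A) (ht : A ∣ t ^ 2 - M) (hj : jacobiSym (-A) M = 1)
    (hloc : ∀ q : ℕ, q.Prime → q ∣ M → jacobiSym (-A) q = -1 → jacobiSym (-D) q = 1) :
    ∃ n' : ℤ, n' ≠ 0 ∧ Rep D n' ∧ Rep A ((M * n' : ℤ) : ℚ) := by
  obtain ⟨s0, f, hsf, hs0⟩ := Nat.sq_mul_squarefree M
  obtain ⟨Q, s1, hQs, hQ, hs1⟩ := split_primes (fun q => jacobiSym (-A) q = -1) hs0.ne_zero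
  have hM : M = f ^ 2 * (Q * s1) := by rw [← hQs, hsf]
  have hf0 : f ≠ 0 := by rintro rfl; simp at hM; exact hM0 hM
  have hQ0 : Q ≠ 0 := by rintro rfl; simp at hM; exact hM0 hM
  have hs10 : s1 ≠ 0 := by rintro rfl; simp at hM; exact hM0 hM
  have hQM : Q ∣ M := ⟨f ^ 2 * s1, by rw [hM]; ring⟩
  have hs1M : s1 ∣ M := ⟨f ^ 2 * Q, by rw [hM]; ring⟩
  have hfM : f ∣ M := ⟨f * (Q * s1), by rw [hM]; ring⟩
  have hcop : ∀ d : ℕ, d ∣ M → IsCoprime (d : ℤ) A := fun d hd =>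
    IsCoprime.of_isCoprime_of_dvd_left hMA (by exact_mod_cast hd)
  have hgcd : ∀ d : ℕ, d ∣ M → (-A).gcd d = 1 := fun d hd =>
    Int.isCoprime_iff_gcd_eq_one.mp (hcop d hd).symm.neg_left
  have hs1j : ∀ q : ℕ, q.Prime → q ∣ s1 → jacobiSym (-A) q = 1 := fun q hq hd =>
    (jacobiSym.eq_one_or_neg_one (hgcd q (hd.trans hs1M))).resolve_right (hs1 q hq hd)
  have hjQ : jacobiSym (-A) Q = 1 := by
    rw [hM, jacobiSym.mul_right' _ (pow_ne_zero 2 hf0) (mul_ne_zero hQ0 hs10),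
      jacobiSym.mul_right' _ hQ0 hs10, jacobiSym.pow_right, jacobiSym.sq_one (hgcd f hfM),
      jac_right_one_of_primes hs10 hs1j] at hj
    simpa using hj
  have hQD : ∀ q : ℕ, q.Prime → q ∣ Q → jacobiSym (-D) q = 1 := fun q hq hd =>
    hloc q hq (hd.trans hQM) (hQ q hq hd)
  have hjQD : jacobiSym (-D) Q = 1 := jac_right_one_of_primes hQ0 hQD
  have hQc : IsCoprime (Q : ℤ) (4 * D * A) := by
    apply IsCoprime.mul_right _ (hcop Q hQM)
    apply IsCoprime.mul_right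
    · have hQo : Q % 2 = 1 := Nat.odd_iff.mp (hMo.of_dvd_nat hQM)
      have : IsCoprime (Q : ℤ) 2 := ⟨1, -(Q / 2), by omega⟩
      simpa using this.pow_right (n := 2)
    · have : NeZero Q := ⟨hQ0⟩
      have h : ¬ ((-D).gcd Q ≠ 1) := by
        rw [← jacobiSym.eq_zero_iff_not_coprime, hjQD]; norm_num
      simpa using (Int.isCoprime_iff_gcd_eq_one.mpr (not_not.mp h)).neg_left.symm
  obtain ⟨u, v, huv⟩ := hQc
  obtain ⟨l2, hl2s, hl2, k, hk⟩ := dirichlet (M := 4 * D * A) (a := u) (by positivity)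
    ⟨Q, v, by linarith⟩ s0
  have hn' : ((Q * l2 : ℕ) : ℤ) - 1 = 4 * D * A * (Q * k - v) := by
    push_cast; linear_combination (Q : ℤ) * hk + huv
  have hn'o : Odd (Q * l2) := by
    have : ((Q * l2 : ℕ) : ℤ) = 2 * (2 * D * A * (Q * k - v)) + 1 := by linarith
    exact Nat.odd_iff.mpr (by omega)
  have hjD : jacobiSym (-D) l2 = 1 := by
    have := jac_of_one_mod (-D) hn'o ⟨-(A * (Q * k - v)), by rw [hn']; ring⟩
    rwa [jacobiSym.mul_right' _ hQ0 hl2.ne_zero, hjQD, one_mul] at this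
  have hjA : jacobiSym (-A) l2 = 1 := by
    have := jac_of_one_mod (-A) hn'o ⟨-(D * (Q * k - v)), by rw [hn']; ring⟩
    rwa [jacobiSym.mul_right' _ hQ0 hl2.ne_zero, hjQ, one_mul] at this
  have hl2c : Nat.Coprime s0 l2 :=
    ((Nat.Prime.coprime_iff_not_dvd hl2).mpr
      (Nat.not_dvd_of_pos_of_lt (Nat.pos_of_ne_zero hs0.ne_zero) hl2s)).symm
  have hsq : Squarefree (s0 * l2) :=
    (Nat.squarefree_mul hl2c).mpr ⟨hs0, hl2.squarefree⟩
  have hsq1 : Squarefree (Q * l2) := hsq.squarefree_of_dvd ⟨s1, by rw [hQs]; ring⟩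
  have hsq2 : Squarefree (s1 * l2) := hsq.squarefree_of_dvd ⟨Q, by rw [hQs]; ring⟩
  have hl2pos : (0 : ℤ) < l2 := by exact_mod_cast hl2.pos
  have hr1 : Rep D ((Q * l2 : ℕ) : ℤ) := by
    apply legendre_rep _ D (by exact_mod_cast Nat.pos_of_ne_zero hsq1.ne_zero) hD
    · exact ⟨1, -(4 * A * (Q * k - v)), by linarith⟩
    · exact ⟨1, -(4 * A * (Q * k - v)), by linarith⟩
    · obtain ⟨r, hr⟩ := sq_mod_of_primes hsq1 (-D) (fun q hq hd => by
        rcases (Nat.Prime.dvd_mul hq).mp hd with h | h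
        · exact sq_of_jac hq (hQD q hq h)
        · rw [(Nat.prime_dvd_prime_iff_eq hq hl2).mp h]; exact sq_of_jac hl2 hjD)
      exact ⟨r, by simpa using hr⟩
  have hl2A : IsCoprime (l2 : ℤ) A := by
    refine ⟨Q, -(4 * D * (Q * k - v)), ?_⟩
    push_cast at hn'; linarith
  have hr2 : Rep A ((s1 * l2 : ℕ) : ℤ) := by
    apply legendre_rep _ A (by exact_mod_cast Nat.pos_of_ne_zero hsq2.ne_zero) hA
    · push_cast; exact (hcop s1 hs1M).mul_left hl2A
    · obtain ⟨a, b, hab⟩ := (hcop Q hQM).mul_left (hcop f hfM)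
      obtain ⟨j, hj⟩ := ht
      have hM' : (M : ℤ) = f ^ 2 * (Q * s1) := by exact_mod_cast hM
      refine ⟨t * a, ?_⟩
      have e1 : A ∣ (t * a) ^ 2 - M * a ^ 2 := ⟨j * a ^ 2, by linear_combination a ^ 2 * hj⟩
      have e2 : A ∣ M * a ^ 2 - M * a ^ 2 * (Q * l2) := by
        refine ⟨-(M * a ^ 2 * (4 * D * (Q * k - v))), ?_⟩
        push_cast at hn'
        linear_combination (-(M * a ^ 2)) * hn'
      have e3 : A ∣ M * a ^ 2 * (Q * l2) - s1 * l2 := by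
        refine ⟨-(s1 * l2 * b * (a * (Q * f) + 1)), ?_⟩
        rw [hM']
        linear_combination (s1 * l2 * (a * (Q * f) + 1) : ℤ) * hab
      have := dvd_add (dvd_add e1 e2) e3
      rw [show (t * a) ^ 2 - M * a ^ 2 + (M * a ^ 2 - M * a ^ 2 * (Q * l2)) +
        (M * a ^ 2 * (Q * l2) - s1 * l2) = (t * a) ^ 2 - s1 * l2 by ring] at this
      exact_mod_cast this
    · obtain ⟨r, hr⟩ := sq_mod_of_primes hsq2 (-A) (fun q hq hd => by
        rcases (Nat.Prime.dvd_mul hq).mp hd with h | h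
        · exact sq_of_jac hq (hs1j q hq h)
        · rw [(Nat.prime_dvd_prime_iff_eq hq hl2).mp h]; exact sq_of_jac hl2 hjA)
      exact ⟨r, by simpa using hr⟩
  refine ⟨((Q * l2 : ℕ) : ℤ), by exact_mod_cast hsq1.ne_zero, hr1, ?_⟩
  convert hr2.mul_sq ((f * Q : ℕ) : ℚ) using 1
  rw [hM]; push_cast; ring

end Pool.Agent.P.MP_cd0533_lc
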