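import Pool.Agent.P.MP_cd0533_lc.Existence

/-!
Solvability of `SysM`, and the description of the non-squares.
-/

set_option autoImplicit false

namespace Pool.Agent.P.MP_cd0533_lc

open Pool.Agent.Lib.Legendre

theorem sysM_of_squarefree {x : ℕ} (hx : Squarefree x) (h1 : x ≠ 1) (h3 : x % 3 = 1)
    (h7 : ¬ (7 : ℤ) ∣ x) : SysM ((x : ℤ) : ℚ) := by
  classical
  obtain ⟨n, l, hn, hl, hn4, hn3, hn7, hl4, hl3, hcn, hnc, hn7x, hjl⟩ := exists_primes hx h1 h3 h7
  have hx0 : (0 : ℤ) < x := by exact_mod_cast Nat.pos_of_ne_zero hx.ne_zero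
  have hn0 : (0 : ℤ) < n := by exact_mod_cast hn.pos
  have hl0 : (0 : ℤ) < l := by exact_mod_cast hl.pos
  have hno : Odd n := Nat.odd_iff.mpr (by omega)
  have hnP := intPrime hn
  have hlP := intPrime hl
  have hr7 : Rep (7 : ℤ) (n : ℤ) := by
    apply legendre_rep n 7 hn0 (by norm_num) ⟨1, -(n / 7), by omega⟩ ⟨1, by omega⟩
    have := jac_neg_three_mod_four (p := 7) (by norm_num) hno
    rw [jac_left_congr (b := 1) (n := 7) (by omega), jacobiSym.one_left] at this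
    obtain ⟨t, ht⟩ := sq_of_jac hn this
    exact ⟨t, by simpa using ht⟩
  have hcn' : IsCoprime (3 * l : ℤ) n := by
    obtain ⟨k, hk⟩ := hnc
    exact ⟨1, -k, by linarith⟩
  have h3l : IsCoprime (3 : ℤ) l := ⟨-(l / 3), 1, by omega⟩
  have hrc : Rep (n : ℤ) ((3 * l : ℤ) : ℚ) := by
    apply legendre_rep _ n (by positivity) hn0 hcn' ⟨1, by
      simpa using (dvd_neg.mpr hnc)⟩
    have hco : Odd (3 * l) := Nat.odd_iff.mpr (by omega)
    have e1 : jacobiSym (-(n : ℤ)) (3 * l) = 1 := by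
      rw [jacobiSym.neg _ hco, ZMod.χ₄_nat_one_mod_four (by omega), one_mul,
        jacobiSym.quadratic_reciprocity_one_mod_four hn4 hco,
        jac_left_congr (b := 1) (by push_cast; exact hnc), jacobiSym.one_left]
    have e2 : jacobiSym (-(n : ℤ)) 3 = 1 := by
      rw [jac_left_congr (b := 1) (n := 3) (by omega), jacobiSym.one_left]
    rw [jacobiSym.mul_right' _ (by norm_num) hl.ne_zero, e2, one_mul] at e1
    obtain ⟨t2, ht2⟩ := sq_of_jac hl e1
    obtain ⟨t, h4, h5⟩ := crt2 h3l 1 t2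
    refine ⟨t, h3l.mul_dvd ?_ ?_⟩
    · have : t ^ 2 + n = (t - 1) * (t + 1) + (n + 1) := by ring
      rw [this]; exact dvd_add (h4.mul_right _) (by omega)
    · have : t ^ 2 + n = (t - t2) * (t + t2) + (t2 ^ 2 - -n) := by ring
      rw [this]; exact dvd_add (h5.mul_right _) ht2
  have hc7x : IsCoprime (3 * l : ℤ) (7 * x) := by
    obtain ⟨k, hk⟩ := hcn
    have := hn7x.add_mul_left_left k
    rwa [show (n : ℤ) + 7 * x * k = 3 * l by linarith] at this
  have hsq7x : Squarefree (7 * x) := by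
    refine (Nat.squarefree_mul ?_).mpr ⟨(by norm_num : Nat.Prime 7).squarefree, hx⟩
    exact (Nat.Prime.coprime_iff_not_dvd (by norm_num)).mpr (fun h => h7 (by exact_mod_cast h))
  obtain ⟨τ, w, z, hτ, hw0, hτw, hw⟩ := conic_adjust (c := 3 * l) hnP
    ((7 * x).primeFactors.erase 2) (by
      intro q hq
      obtain ⟨hq2, hq⟩ := Finset.mem_erase.mp hq
      have hqp := Nat.prime_of_mem_primeFactors hq
      have hqd : (q : ℤ) ∣ 7 * x := by exact_mod_cast Nat.dvd_of_mem_primeFactors hq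
      exact ⟨hqp, hq2, fun h => (intPrime hqp).not_isUnit (hc7x.isUnit_of_dvd' h hqd),
        hqd.trans hcn⟩) hrc (by
      intro τ z h
      by_contra hτ
      have hτ' : (τ : ℚ) ≠ 0 := by exact_mod_cast hτ
      have h' : (3 * l : ℚ) * τ ^ 2 = n * z ^ 2 := by exact_mod_cast h
      have hr : Rep (1 : ℤ) ((3 * (l * n) : ℤ) : ℚ) := by
        refine ⟨n * z / τ, 0, ?_⟩
        push_cast; field_simp; linear_combination n * h'
      have := sq_dvd_of_inert (q := 3) Nat.prime_three (by norm_num) hr (dvd_mul_right _ _)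
      have h9 : (3 : ℤ) ∣ l * n := by
        obtain ⟨k, hk⟩ := this
        exact ⟨k, by push_cast at hk; linarith⟩
      rcases Int.prime_three.dvd_or_dvd h9 with h | h <;> omega)
  have hprim : ∀ q : ℕ, q.Prime → (q : ℤ) ∣ τ → (q : ℤ) ∣ w → False := fun q hq a b =>
    (intPrime hq).not_isUnit (hτw.isUnit_of_dvd' a b)
  have hτo : ¬ (2 : ℤ) ∣ τ := by
    rintro ⟨k, rfl⟩
    have hwo : ¬ (2 : ℤ) ∣ w := hprim 2 Nat.prime_two ⟨k, rfl⟩
    obtain ⟨a, rfl⟩ : ∃ a, w = 2 * a + 1 := ⟨w / 2, by omega⟩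
    obtain ⟨b, hb⟩ : ∃ b : ℤ, (n : ℤ) = 4 * b + 1 := ⟨n / 4, by omega⟩
    obtain ⟨d, hd⟩ : ∃ d : ℤ, z = 2 * d ∨ z = 2 * d + 1 := ⟨z / 2, by omega⟩
    rw [hb] at hτ
    rcases hd with rfl | rfl
    · have : 4 * (3 * l * k ^ 2 - a ^ 2 - a - (4 * b + 1) * d ^ 2) = 1 := by linarith
      omega
    · have : 4 * (3 * l * k ^ 2 - a ^ 2 - a - (4 * b + 1) * (d ^ 2 + d) - b) = 2 := by linarith
      omega
  have hτ0 : τ ≠ 0 := fun h => hτo (h ▸ dvd_zero _)
  have hw4 : (7 * x : ℤ) ∣ 4 * w := by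
    have := dvd_of_primes_dvd hsq7x (t := 4 * w) (fun q hq hd => by
      by_cases hq2 : q = 2
      · subst hq2; exact ⟨2 * w, by push_cast; ring⟩
      · exact (hw q (Finset.mem_erase.mpr ⟨hq2, Nat.mem_primeFactors.mpr
          ⟨hq, hd, hsq7x.ne_zero⟩⟩)).mul_left _)
    exact_mod_cast this
  have hτ7x : IsCoprime τ (7 * x) := by
    have := isCoprime_of_primes (Q := 7 * x) (M := τ) (fun q hq hd hqτ => by
      by_cases hq2 : q = 2
      · subst hq2; exact hτo hqτ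
      · exact hprim q hq hqτ (hw q (Finset.mem_erase.mpr ⟨hq2, Nat.mem_primeFactors.mpr
          ⟨hq, hd, hsq7x.ne_zero⟩⟩)))
    exact_mod_cast this.symm
  obtain ⟨m, hm⟩ : ∃ m : ℕ, (m : ℤ) = l * τ ^ 2 + 16 * w ^ 2 :=
    ⟨(l * τ ^ 2 + 16 * w ^ 2).toNat, Int.toNat_of_nonneg (by positivity)⟩
  have hm0 : (0 : ℤ) < m := by rw [hm]; positivity
  have hm0' : m ≠ 0 := by rintro rfl; simp at hm0
  have hmo : Odd m := by
    obtain ⟨a, rfl⟩ : ∃ a, τ = 2 * a + 1 := ⟨τ / 2, by omega⟩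
    obtain ⟨b, hb⟩ : ∃ b : ℤ, (l : ℤ) = 2 * b + 1 := ⟨l / 2, by omega⟩
    have : (m : ℤ) = 2 * ((2 * b + 1) * (2 * a ^ 2 + 2 * a) + b + 8 * w ^ 2) + 1 := by
      rw [hm, hb]; ring
    exact Nat.odd_iff.mpr (by omega)
  have hm3 : ¬ (3 : ℤ) ∣ m := by
    intro h
    have h' : (3 : ℤ) ∣ (4 * w) ^ 2 + l * τ ^ 2 := by
      rwa [show (4 * w) ^ 2 + l * τ ^ 2 = (m : ℤ) by rw [hm]; ring]
    obtain ⟨e1, e2⟩ := three_inert (by omega) h'
    exact hprim 3 Nat.prime_three e2 (by omega)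
  have hlτ : IsCoprime ((l : ℤ) * τ) (7 * x) := hc7x.of_mul_left_right.mul_left hτ7x
  obtain ⟨k4, hk4⟩ := hw4
  have hM7x : (7 * x : ℤ) ∣ (l * τ) ^ 2 - (l * m : ℕ) :=
    ⟨-(l * 4 * w * k4), by push_cast; rw [hm]; linear_combination (-(l * 4 * w) : ℤ) * hk4⟩
  have hMc : IsCoprime ((l * m : ℕ) : ℤ) (7 * x) := by
    obtain ⟨k, hk⟩ := hM7x
    have := (hlτ.pow_left (m := 2)).add_mul_left_left (-k)
    rwa [show ((l : ℤ) * τ) ^ 2 + 7 * x * -k = ((l * m : ℕ) : ℤ) by linarith] at this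
  have hlo : Odd l := Nat.odd_iff.mpr (by omega)
  have hMo : Odd (l * m) := hlo.mul hmo
  have hjM : jacobiSym (-(7 * x)) (l * m) = 1 := by
    have hτo' : Odd τ.natAbs := Int.natAbs_odd.mpr (Int.not_even_iff_odd.mp
      (fun h => hτo (even_iff_two_dvd.mp h)))
    have e : (4 * -(7 * x) : ℤ) ∣ ((l * m : ℕ) : ℤ) - (((l * τ.natAbs) ^ 2 : ℕ) : ℤ) := by
      refine ⟨-(l * w * k4), ?_⟩
      push_cast
      rw [mul_pow, sq_abs, hm]
      linear_combination (l * 4 * w : ℤ) * hk4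
    rw [jac_right_congr _ hMo ((hlo.mul hτo').pow) e, jacobiSym.pow_right]
    apply jacobiSym.sq_one
    apply Int.isCoprime_iff_gcd_eq_one.mp
    push_cast
    apply IsCoprime.neg_left
    apply IsCoprime.mul_right hc7x.of_mul_left_right.symm
    rcases abs_choice τ with h | h <;> rw [h]
    · exact hτ7x.symm
    · exact hτ7x.symm.neg_right
  have hmloc : ∀ q : ℕ, q.Prime → q ∣ m → q ≠ l → q ≠ 2 ∧ ¬ (q : ℤ) ∣ 3 * l ∧ ¬ (q : ℤ) ∣ 7 * x ∧
      ¬ (q : ℤ) ∣ τ ∧ ¬ (q : ℤ) ∣ w ∧ ¬ (q : ℤ) ∣ n * z ^ 2 := by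
    intro q hq hqm hql
    have hP := intPrime hq
    have hqm' : (q : ℤ) ∣ m := by exact_mod_cast hqm
    have hq2 : q ≠ 2 := by
      rintro rfl
      exact (Nat.not_even_iff_odd.mpr hmo) (even_iff_two_dvd.mpr hqm)
    have hql' : ¬ (q : ℤ) ∣ l := fun h =>
      hql ((Nat.prime_dvd_prime_iff_eq hq hl).mp (by exact_mod_cast h))
    have hq3 : ¬ (q : ℤ) ∣ 3 := fun h => by
      have : q = 3 := (Nat.prime_dvd_prime_iff_eq hq Nat.prime_three).mp (by exact_mod_cast h)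
      subst this; exact hm3 hqm'
    have hq7x : ¬ (q : ℤ) ∣ 7 * x := fun h =>
      hP.not_isUnit (hMc.isUnit_of_dvd' (by push_cast; exact hqm'.mul_left _) h)
    have hqτ : ¬ (q : ℤ) ∣ τ := by
      intro h
      have e1 : (q : ℤ) ∣ (2 * (2 * w)) ^ 2 := by
        have := dvd_sub hqm' ((h.pow two_ne_zero).mul_left l)
        rwa [show (m : ℤ) - l * τ ^ 2 = (2 * (2 * w)) ^ 2 by rw [hm]; ring] at this
      have e2 := (hP.dvd_or_dvd (hP.dvd_of_dvd_pow e1)).resolve_left (not_dvd_two hq hq2)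
      exact hprim q hq h ((hP.dvd_or_dvd e2).resolve_left (not_dvd_two hq hq2))
    have hqw : ¬ (q : ℤ) ∣ w := by
      intro h
      have e1 : (q : ℤ) ∣ l * τ ^ 2 := by
        have := dvd_sub hqm' ((h.pow two_ne_zero).mul_left 16)
        rwa [show (m : ℤ) - 16 * w ^ 2 = l * τ ^ 2 by rw [hm]; ring] at this
      exact hqτ (hP.dvd_of_dvd_pow ((hP.dvd_or_dvd e1).resolve_left hql'))
    refine ⟨hq2, fun h => (hP.dvd_or_dvd h).elim hq3 hql', hq7x, hqτ, hqw, fun h => ?_⟩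
    have e1 : (q : ℤ) ∣ (7 * w) ^ 2 := by
      have := dvd_sub (hqm'.mul_left 3) h
      rwa [show 3 * (m : ℤ) - n * z ^ 2 = (7 * w) ^ 2 by rw [hm]; linarith] at this
    rcases hP.dvd_or_dvd (hP.dvd_of_dvd_pow e1) with e2 | e2
    · exact hq7x (e2.mul_right _)
    · exact hqw e2
  obtain ⟨B, B', A, N, hq4, hN0, hA⟩ := quadric_adjust (a1 := 3 * l * n) (a2 := 3 * l) (a3 := 7 * n)
    (a4 := x) (by positivity) (by positivity) (by positivity) (m.primeFactors.erase l) (by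
      intro q hq
      obtain ⟨hql, hq⟩ := Finset.mem_erase.mp hq
      have hqp := Nat.prime_of_mem_primeFactors hq
      obtain ⟨e1, e2, e3, -, -, e6⟩ := hmloc q hqp (Nat.dvd_of_mem_primeFactors hq) hql
      exact ⟨hqp, e1, fun h => ((intPrime hqp).dvd_or_dvd h).elim e2
        (fun h => e6 (h.mul_right _)), e2, fun h => e3 (h.mul_left _)⟩) (by
      obtain ⟨g1, g2, g3, hg⟩ := tern_of_not_dvd (p := 7) (by norm_num) (by norm_num) hx0 h7
      have hnq : ((n : ℤ) : ℚ) ≠ 0 := by exact_mod_cast hn0.ne'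
      obtain ⟨V, A, hVA⟩ := Rep.div (A := ((7 : ℤ) : ℚ)) (s := g2 ^ 2 + 7 * g3 ^ 2)
        ⟨g2, g3, by push_cast; ring⟩ hr7 hnq
      obtain ⟨B', B, hB⟩ := Rep.div (A := ((n : ℤ) : ℚ)) (s := g1 ^ 2 + n * V ^ 2)
        ⟨g1, V, by push_cast; ring⟩ hrc (by
          have : (3 * l : ℤ) ≠ 0 := by positivity
          exact_mod_cast this)
      refine ⟨B, B', A, ?_⟩
      push_cast at hg hVA hB ⊢
      linear_combination hg + hVA + hB)
  set D : ℤ := 7 ^ 4 * n * τ ^ 2 * A ^ 2 + 21 * m * (n * B ^ 2 + 49 * B' ^ 2) with hD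
  have hD0 : 0 < D := by
    have e1 : 0 ≤ 7 ^ 4 * n * τ ^ 2 * A ^ 2 := by positivity
    have e2 : 0 ≤ 21 * m * (n * B ^ 2 + 49 * B' ^ 2) := by positivity
    by_cases hA0 : A = 0
    · have e3 : 0 < n * B ^ 2 + 49 * B' ^ 2 := by
        have e4 : 0 < x * N ^ 2 := by positivity
        rw [← hq4, hA0] at e4
        have e5 : 0 < 3 * l * (n * B ^ 2 + B' ^ 2) := by linarith
        have e6 : 0 < n * B ^ 2 + B' ^ 2 := (mul_pos_iff_of_pos_left (by positivity)).mp e5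
        nlinarith [sq_nonneg B']
      have : 0 < 21 * m * (n * B ^ 2 + 49 * B' ^ 2) := by positivity
      linarith
    · have : 0 < 7 ^ 4 * n * τ ^ 2 * A ^ 2 := by positivity
      linarith
  obtain ⟨n', hn'0, hr1, hr2⟩ := exists_common_norm (A := 7 * x) (D := D) (by positivity) hD0
    (M := l * m) (mul_ne_zero hl.ne_zero hm0') hMo hMc hM7x hjM (by
      intro q hq hd hj
      have hql : q ≠ l := by rintro rfl; rw [hjl] at hj; norm_num at hj
      have hqm : q ∣ m := ((Nat.Prime.dvd_mul hq).mp hd).resolve_left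
        (fun h => hql ((Nat.prime_dvd_prime_iff_eq hq hl).mp h))
      obtain ⟨e1, e2, e3, e4, e5, e6⟩ := hmloc q hq hqm hql
      have e7 := hA q (Finset.mem_erase.mpr ⟨hql, Nat.mem_primeFactors.mpr ⟨hq, hqm, hm0'⟩⟩)
      have hP := intPrime hq
      have e8 : ¬ (q : ℤ) ∣ 7 := fun h => e3 (h.mul_right _)
      have e9 : ¬ (q : ℤ) ∣ z := fun h => e6 ((h.pow two_ne_zero).mul_left _)
      have e10 : ¬ (q : ℤ) ∣ 7 ^ 3 * τ * A * w := by
        intro h
        rcases hP.dvd_or_dvd h with h | h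
        · rcases hP.dvd_or_dvd h with h | h
          · rcases hP.dvd_or_dvd h with h | h
            · exact e8 (hP.dvd_of_dvd_pow h)
            · exact e4 h
          · exact e7 h
        · exact e5 h
      obtain ⟨k, hk⟩ := hqm
      have hk' : (m : ℤ) = q * k := by exact_mod_cast hk
      have e11 : jacobiSym ((7 ^ 3 * τ * A * w) ^ 2) q = jacobiSym (-D * z ^ 2) q := by
        apply jac_left_congr
        refine ⟨k * (3 * 7 ^ 4 * τ ^ 2 * A ^ 2 + 21 * (n * B ^ 2 + 49 * B' ^ 2) * z ^ 2), ?_⟩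
        rw [hD]
        linear_combination (3 * 7 ^ 4 * τ ^ 2 * A ^ 2 + 21 * (n * B ^ 2 + 49 * B' ^ 2) * z ^ 2) * hk'
          - 3 * 7 ^ 4 * τ ^ 2 * A ^ 2 * hm - 7 ^ 4 * τ ^ 2 * A ^ 2 * hτ
      rw [jacobiSym.sq_one' (Int.isCoprime_iff_gcd_eq_one.mp (coprime_of_prime_not_dvd hq e10).symm),
        jacobiSym.mul_left,
        jacobiSym.sq_one' (Int.isCoprime_iff_gcd_eq_one.mp (coprime_of_prime_not_dvd hq e9).symm),
        mul_one] at e11
      exact e11.symm)
  obtain ⟨E, Z, Y, hE0, hE⟩ := hr1.exists_int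
  set μ : ℤ := 3 * m * Y with hμ
  set lam : ℤ := w * Z - 7 * n * z * A * τ * Y with hlam
  set L3 : ℤ := n * ((z * lam + 7 * A * τ * μ) ^ 2 + 7 * (B * w * μ) ^ 2) with hL3
  set L4 : ℤ := (w * lam) ^ 2 + 7 * (w * B' * μ) ^ 2 with hL4
  have hL2 : 3 * l * (L3 + L4) =
      (3 * l * τ * lam + 7 * n * z * A * μ) ^ 2 + 7 * x * (w * N * μ) ^ 2 := by
    rw [hL3, hL4]
    linear_combination (-(3 * l * lam ^ 2) + 49 * n * A ^ 2 * μ ^ 2) * hτ
      + 7 * w ^ 2 * μ ^ 2 * hq4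
  have hm3' : 3 * (m : ℤ) = n * z ^ 2 + 49 * w ^ 2 := by rw [hm]; linarith
  have hL1 : L3 + 49 * L4 = 3 * m * w ^ 2 * n' * E ^ 2 := by
    apply mul_left_cancel₀ (show (3 * m : ℤ) ≠ 0 by positivity)
    have e1 : 3 * m * (L3 + 49 * L4) =
        (3 * m * lam + 7 * n * z * A * τ * μ) ^ 2 + D * (w * μ) ^ 2 := by
      rw [hL3, hL4, hD]
      linear_combination (-(3 * m * lam ^ 2) + 49 * n * A ^ 2 * τ ^ 2 * μ ^ 2) * hm3'
    rw [e1, hμ, hlam]
    linear_combination (-(3 * m * w) ^ 2) * hE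
  have hL10 : L3 + 49 * L4 ≠ 0 := by rw [hL1]; positivity
  have hL20 : L3 + L4 ≠ 0 := by
    have e3 : 0 ≤ L3 := by rw [hL3]; positivity
    have e4 : 0 ≤ L4 := by rw [hL4]; positivity
    omega
  refine assemble (n := n) (l := l) hx0 (by omega) (by omega) (by omega) hr7 _ _ _ _ _ _ _ L3 L4
    hL3 hL4 hL2 rfl (mul_ne_zero hL10 hL20) ?_
  have hlq : (l : ℚ) ≠ 0 := by exact_mod_cast hl.ne_zero
  apply Rep.of_mul_sq hlq
  have r3 : Rep ((7 * x : ℤ) : ℚ) ((3 * l * (L3 + L4) : ℤ) : ℚ) := by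
    rw [hL2]
    exact ⟨((3 * l * τ * lam + 7 * n * z * A * μ : ℤ) : ℚ), ((w * N * μ : ℤ) : ℚ),
      by push_cast; ring⟩
  convert (hr2.mul r3).mul_sq ((w * E : ℤ) : ℚ) using 1
  rw [hL1]; push_cast; ring

/-- The non-squares, described by sign conditions and three diagonal systems. -/
theorem not_isSquare_iff (x : ℚ) : ¬ IsSquare x ↔
    x < 0 ∨ (0 < x ∧ (Tern 3 (6 * x) ∨ Tern 7 (21 * x) ∨ SysM x)) := by
  constructor
  · intro hx
    rcases lt_trichotomy x 0 with h | h | h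
    · exact Or.inl h
    · exact absurd ⟨0, by simp [h]⟩ hx
    refine Or.inr ⟨h, ?_⟩
    have hnum : 0 < x.num := Rat.num_pos.mpr h
    obtain ⟨s, f, hsf, hs⟩ := Nat.sq_mul_squarefree (x.num.natAbs * x.den)
    have hd : (x.den : ℚ) ≠ 0 := by exact_mod_cast x.den_nz
    have hxs : x = ((s : ℤ) : ℚ) * ((f : ℚ) / x.den) ^ 2 := by
      have e1 : ((f : ℤ) ^ 2 * s : ℤ) = x.num * x.den := by
        have : ((f ^ 2 * s : ℕ) : ℤ) = ((x.num.natAbs * x.den : ℕ) : ℤ) := by rw [hsf]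
        push_cast at this
        rwa [abs_of_pos hnum] at this
      have e2 : ((f : ℚ) ^ 2 * s : ℚ) = x.num * x.den := by exact_mod_cast e1
      rw [← Rat.mul_den_eq_num x] at e2
      push_cast
      field_simp
      linarith
    set g : ℚ := (f : ℚ) / x.den with hg
    have hs1 : s ≠ 1 := by
      rintro rfl
      exact hx ⟨g, by rw [hxs]; push_cast; ring⟩
    have hs0 : (0 : ℤ) < s := by exact_mod_cast Nat.pos_of_ne_zero hs.ne_zero
    have hnsq : ∀ p : ℕ, p.Prime → ∀ k : ℤ, (s : ℤ) = p * k → ¬ (p : ℤ) ∣ k := by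
      rintro p hp k hk ⟨j, rfl⟩
      have : (p * p : ℕ) ∣ s := by
        have : ((p * p : ℕ) : ℤ) ∣ s := ⟨j, by rw [hk]; push_cast; ring⟩
        exact_mod_cast this
      exact hp.one_lt.ne' (Nat.isUnit_iff.mp (hs p this))
    by_cases h30 : (3 : ℤ) ∣ s
    · left
      obtain ⟨k, hk⟩ := h30
      have := hnsq 3 Nat.prime_three k hk
      have ht := tern_of_not_dvd Nat.prime_three (by norm_num) (y := 2 * k) (by omega) (by omega)
      have := ht.mul_sq (3 * g)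
      convert this using 1
      · norm_num
      · rw [hxs, hk]; push_cast; ring
    by_cases h32 : s % 3 = 2
    · left
      have ht := tern_mul_of_sq Nat.prime_three (by norm_num) (y := 2 * s) (by omega) (by omega)
        ⟨1, by omega⟩
      have := ht.mul_sq g
      convert this using 1
      · norm_num
      · rw [hxs]; push_cast; ring
    right
    have hp7 : Nat.Prime 7 := by norm_num
    by_cases h70 : (7 : ℤ) ∣ s
    · left
      obtain ⟨k, hk⟩ := h70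
      have := hnsq 7 hp7 k hk
      have ht := tern_of_not_dvd hp7 (by norm_num) (y := 3 * k) (by omega) (by omega)
      have := ht.mul_sq (7 * g)
      convert this using 1
      · norm_num
      · rw [hxs, hk]; push_cast; ring
    right
    have := (sysM_of_squarefree hs hs1 (by omega) h70).mul_sq g
    rwa [← hxs] at this
  · rintro (h | ⟨h, h1⟩) ⟨s, hs⟩
    · nlinarith [mul_self_nonneg s]
    have hs0 : s ≠ 0 := by rintro rfl; simp [hs] at h
    rcases h1 with h1 | h1 | h1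
    · apply not_tern Nat.prime_three (by norm_num) (e := 2) (by norm_num)
      have := h1.mul_sq s⁻¹
      convert this using 1
      · norm_num
      · rw [hs]; field_simp; norm_num
    · apply not_tern (p := 7) (by norm_num) (by norm_num) (e := 3) (by norm_num)
      have := h1.mul_sq s⁻¹
      convert this using 1
      · norm_num
      · rw [hs]; field_simp; norm_num
    · exact not_sysM_sq hs0 (by rwa [sq, ← hs])

end Pool.Agent.P.MP_cd0533_lc
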