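import Pool.Agent.Lib.Legendre.Ternary

/-!
The diagonal system `SysM` and the reciprocity obstruction: it has no solution at a nonzero square.
-/

set_option autoImplicit false

namespace Pool.Agent.P.MP_cd0533_lc

open Pool.Agent.Lib.Legendre

/-- the main diagonal system -/
def SysM (x : ℚ) : Prop :=
  ∃ U v y y' z' g1 g2 g3 : ℚ, x = 16 * v ^ 2 - U ^ 2 - 7 * y ^ 2 ∧
    9 * v ^ 2 - U ^ 2 = y' ^ 2 + 7 * z' ^ 2 ∧ U ^ 2 + 6 * v ^ 2 = g1 ^ 2 + g2 ^ 2 + 3 * g3 ^ 2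

lemma SysM.mul_sq {x : ℚ} (h : SysM x) (f : ℚ) : SysM (x * f ^ 2) := by
  obtain ⟨U, v, y, y', z', g1, g2, g3, h1, h2, h3⟩ := h
  refine ⟨U * f, v * f, y * f, y' * f, z' * f, g1 * f, g2 * f, g3 * f, ?_, ?_, ?_⟩
  · rw [h1]; ring
  · linear_combination f ^ 2 * h2
  · linear_combination f ^ 2 * h3

lemma isCoprime_of_primes {Q : ℕ} {M : ℤ} (h : ∀ q : ℕ, q.Prime → q ∣ Q → ¬ (q : ℤ) ∣ M) :
    IsCoprime (Q : ℤ) M := by
  have : Nat.Coprime Q M.natAbs :=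
    Nat.coprime_of_dvd (fun k hk hkQ hkM => h k hk hkQ (Int.natCast_dvd.mpr hkM))
  have h2 := Nat.isCoprime_iff_coprime.mpr this
  rw [Int.natCast_natAbs] at h2
  rcases abs_choice M with h1 | h1 <;> rw [h1] at h2
  · exact h2
  · simpa using h2.neg_right

lemma jac_seven_of_rep {t t' : ℤ} (ht : 0 < t) (hrep : Rep (7 : ℤ) ((t * t' : ℤ) : ℚ))
    (hcop : ∀ q : ℕ, q.Prime → q ≠ 2 → (q : ℤ) ∣ t → ¬ (q : ℤ) ∣ t') (h7 : ¬ (7 : ℤ) ∣ t) :
    jacobiSym t 7 = 1 := by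
  obtain ⟨k, rfl⟩ := Int.eq_ofNat_of_zero_le ht.le
  obtain ⟨s, f, hsf, hs⟩ := Nat.sq_mul_squarefree k
  have hk0 : k ≠ 0 := by rintro rfl; simp at ht
  have hf0 : f ≠ 0 := by rintro rfl; simp at hsf; exact hk0 hsf.symm
  have hp7 : Nat.Prime 7 := by norm_num
  have hk : (k : ℤ) = (f : ℤ) ^ 2 * s := by exact_mod_cast hsf.symm
  have hf7 : ¬ (7 : ℤ) ∣ f := fun h => h7 (hk ▸ (h.pow two_ne_zero).mul_right _)
  have hs7 : ¬ (7 : ℤ) ∣ s := fun h => h7 (hk ▸ h.mul_left _)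
  rw [hk, jacobiSym.mul_left, jacobiSym.sq_one' (Int.isCoprime_iff_gcd_eq_one.mp
    (coprime_of_prime_not_dvd hp7 hf7).symm), one_mul]
  apply jac_left_one_of_primes hs.ne_zero
  intro q hq hqs
  have hqs' : (q : ℤ) ∣ s := by exact_mod_cast hqs
  have hq7 : ¬ (7 : ℤ) ∣ q := fun h => hs7 (h.trans hqs')
  rcases jacobiSym.eq_one_or_neg_one (Int.isCoprime_iff_gcd_eq_one.mp
    (coprime_of_prime_not_dvd hp7 hq7).symm) with h | h
  · exact h
  exfalso
  have hq2 : q ≠ 2 := by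
    rintro rfl
    revert h; norm_num
  have hj : jacobiSym (-(7 : ℤ)) q = -1 := by
    have := jac_neg_three_mod_four (p := 7) (by norm_num) (hq.odd_of_ne_two hq2)
    rw [← h]; exact_mod_cast this
  have hrep' : Rep (7 : ℤ) (((s : ℤ) * t' : ℤ) : ℚ) := by
    apply Rep.of_mul_sq (f := (f : ℚ)) (by exact_mod_cast hf0)
    convert hrep using 1
    rw [hk]; push_cast; ring
  have h2 := sq_dvd_of_inert hq hj hrep' (hqs'.mul_right _)
  have hqt : ¬ (q : ℤ) ∣ t' := hcop q hq hq2 (hk ▸ hqs'.mul_left _)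
  have h3 : (q : ℤ) ^ 2 ∣ s := ((coprime_of_prime_not_dvd hq hqt).pow_left).dvd_of_dvd_mul_right h2
  have h4 : q * q ∣ s := by rw [← sq]; exact_mod_cast h3
  exact hq.one_lt.ne' (Nat.isUnit_iff.mp (hs q h4))

lemma obstruction_int {U v : ℤ} (hv : 0 < v) (hc : IsCoprime U v) (h3 : ¬ (3 : ℤ) ∣ U)
    (h1 : Rep (7 : ℤ) ((16 * v ^ 2 - U ^ 2 : ℤ) : ℚ))
    (h2 : Rep (7 : ℤ) ((9 * v ^ 2 - U ^ 2 : ℤ) : ℚ)) : False := by
  have hnn : 0 ≤ 9 * v ^ 2 - U ^ 2 := by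
    obtain ⟨y, z, h⟩ := h2
    have : (0 : ℚ) ≤ ((9 * v ^ 2 - U ^ 2 : ℤ) : ℚ) := by rw [h]; positivity
    exact_mod_cast this
  have ha3 : 0 < 3 * v - U := by
    have : 3 * v - U ≠ 0 := fun h => h3 ⟨v, by linarith⟩
    have : 0 ≤ 3 * v - U := by nlinarith
    omega
  have ha4 : 0 < 3 * v + U := by
    have : 3 * v + U ≠ 0 := fun h => h3 ⟨-v, by linarith⟩
    have : 0 ≤ 3 * v + U := by nlinarith
    omega
  have hprim : ∀ q : ℕ, q.Prime → (q : ℤ) ∣ U → (q : ℤ) ∣ v → False := fun q hq a b =>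
    (intPrime hq).not_isUnit (hc.isUnit_of_dvd' a b)
  have hq2 : ∀ q : ℕ, q.Prime → q ≠ 2 → ¬ (q : ℤ) ∣ 2 := fun q hq h2 h =>
    h2 ((Nat.prime_dvd_prime_iff_eq hq Nat.prime_two).mp (by exact_mod_cast h))
  have c12 : ∀ q : ℕ, q.Prime → q ≠ 2 → (q : ℤ) ∣ 4 * v - U → (q : ℤ) ∣ 4 * v + U → False := by
    intro q hq hne a b
    have e1 : (q : ℤ) ∣ 2 * U := by
      have := dvd_sub b a; rwa [show 4 * v + U - (4 * v - U) = 2 * U by ring] at this
    have e2 : (q : ℤ) ∣ U := ((intPrime hq).dvd_or_dvd e1).resolve_left (hq2 q hq hne)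
    have e3 : (q : ℤ) ∣ 2 * (2 * v) := by
      have := dvd_add a e2; rwa [show 4 * v - U + U = 2 * (2 * v) by ring] at this
    have e4 := ((intPrime hq).dvd_or_dvd e3).resolve_left (hq2 q hq hne)
    exact hprim q hq e2 (((intPrime hq).dvd_or_dvd e4).resolve_left (hq2 q hq hne))
  have c34 : ∀ q : ℕ, q.Prime → q ≠ 2 → (q : ℤ) ∣ 3 * v - U → (q : ℤ) ∣ 3 * v + U → False := by
    intro q hq hne a b
    have e1 : (q : ℤ) ∣ 2 * U := by
      have := dvd_sub b a; rwa [show 3 * v + U - (3 * v - U) = 2 * U by ring] at this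
    have e2 : (q : ℤ) ∣ U := ((intPrime hq).dvd_or_dvd e1).resolve_left (hq2 q hq hne)
    have e3 : (q : ℤ) ∣ 3 * v := by
      have := dvd_add a e2; rwa [show 3 * v - U + U = 3 * v by ring] at this
    rcases (intPrime hq).dvd_or_dvd e3 with e4 | e4
    · have : q = 3 := (Nat.prime_dvd_prime_iff_eq hq Nat.prime_three).mp (by exact_mod_cast e4)
      subst this
      exact h3 e2
    · exact hprim q hq e2 e4
  have hm1 : jacobiSym (-1) 7 = -1 := by norm_num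
  have fin : ∀ a b : ℤ, (7 : ℤ) ∣ a + b → jacobiSym a 7 = 1 → jacobiSym b 7 = 1 → False := by
    intro a b hab ha hb
    have e : jacobiSym a 7 = jacobiSym ((-1) * b) 7 :=
      jac_left_congr (n := 7) (by simpa using hab)
    rw [jacobiSym.mul_left, hm1, ha, hb] at e
    norm_num at e
  by_cases h7 : (7 : ℤ) ∣ 3 * v - U
  · have hv7 : ¬ (7 : ℤ) ∣ v := by
      intro h
      apply hprim 7 (by norm_num) _ h
      have := dvd_sub (h.mul_left 3) h7
      rwa [show 3 * v - (3 * v - U) = U by ring] at this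
    refine fin (4 * v - U) (3 * v + U) ⟨v, by ring⟩ ?_ ?_
    · refine jac_seven_of_rep (t' := 4 * v + U) (by linarith) (by convert h1 using 2; ring)
        (fun q hq hne a b => c12 q hq hne a b) (by omega)
    · refine jac_seven_of_rep (t' := 3 * v - U) ha4 (by convert h2 using 2; ring)
        (fun q hq hne a b => c34 q hq hne b a) (by omega)
  · refine fin (4 * v + U) (3 * v - U) ⟨v, by ring⟩ ?_ ?_
    · refine jac_seven_of_rep (t' := 4 * v - U) (by linarith) (by convert h1 using 2; ring)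
        (fun q hq hne a b => c12 q hq hne b a) (by omega)
    · refine jac_seven_of_rep (t' := 3 * v + U) ha3 (by convert h2 using 2; ring)
        (fun q hq hne a b => c34 q hq hne a b) h7

theorem not_sysM_sq {s : ℚ} (hs : s ≠ 0) : ¬ SysM (s ^ 2) := by
  rintro ⟨U, v, y, y', z', g1, g2, g3, h1, h2, h3⟩
  have hs2 : 0 < s ^ 2 := by positivity
  have hv : v ≠ 0 := by
    rintro rfl
    nlinarith [sq_nonneg U, sq_nonneg y]
  set ρ := U / v with hρ
  have hd : (ρ.den : ℚ) ≠ 0 := by exact_mod_cast ρ.den_nz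
  set f : ℚ := ρ.den / v with hf
  have hU : (ρ.num : ℚ) = U * f := by
    rw [← Rat.mul_den_eq_num ρ, hf, hρ]; field_simp
  have hV : ((ρ.den : ℤ) : ℚ) = v * f := by
    rw [hf]; push_cast; field_simp
  have hc : IsCoprime ρ.num (ρ.den : ℤ) := by
    apply Int.isCoprime_iff_gcd_eq_one.mpr
    exact ρ.reduced
  apply obstruction_int (U := ρ.num) (v := ρ.den) (by exact_mod_cast ρ.den_pos) hc
  · rintro ⟨u, hu⟩
    have hv3 : ¬ (3 : ℤ) ∣ (ρ.den : ℤ) := fun h =>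
      (intPrime Nat.prime_three).not_isUnit (hc.isUnit_of_dvd' ⟨u, hu⟩ h)
    have hj : jacobiSym (3 * u ^ 2 + 2 * (ρ.den : ℤ) ^ 2) 3 = -1 := by
      have : jacobiSym (3 * u ^ 2 + 2 * (ρ.den : ℤ) ^ 2) 3 = jacobiSym 2 3 := by
        apply jac_left_congr (n := 3)
        have h5 : (ρ.den : ℤ) % 3 = 1 ∨ (ρ.den : ℤ) % 3 = 2 := by omega
        generalize (ρ.den : ℤ) = d at h5
        obtain ⟨k, hk⟩ : ∃ k : ℤ, d = 3 * k + 1 ∨ d = 3 * k + 2 := ⟨d / 3, by omega⟩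
        rcases hk with rfl | rfl
        · exact ⟨u ^ 2 + 6 * k ^ 2 + 4 * k, by push_cast; ring⟩
        · exact ⟨u ^ 2 + 6 * k ^ 2 + 8 * k + 2, by push_cast; ring⟩
      rw [this]; norm_num
    apply not_tern Nat.prime_three (by norm_num) hj
    refine ⟨g1 * f, g2 * f, g3 * f, ?_⟩
    have hu' : U * f = 3 * (u : ℚ) := by rw [← hU]; exact_mod_cast hu
    push_cast at hV ⊢
    rw [hV]
    linear_combination f ^ 2 * h3 - (U * f + 3 * u) * hu'
  · refine ⟨s * f, y * f, ?_⟩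
    push_cast at hV ⊢
    rw [hU, hV]
    linear_combination (-f ^ 2) * h1
  · refine ⟨y' * f, z' * f, ?_⟩
    push_cast at hV ⊢
    rw [hU, hV]
    linear_combination (f ^ 2) * h2

end Pool.Agent.P.MP_cd0533_lc
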